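import Mathlib

/-!
# Definitions for rectangular Fourier sums on `𝕋^d = (ℝ/2πℤ)^d`
-/

set_option autoImplicit false

open MeasureTheory Filter Topology
open scoped ENNReal ComplexConjugate

namespace Pool.Agent.Work.MP_fa619e_an

theorem twoPiPos : Fact (0 < 2 * Real.pi) := ⟨Real.two_pi_pos⟩

attribute [local instance] twoPiPos

/-- The torus `𝕋^d = (ℝ/2πℤ)^d`. -/
abbrev Torus (d : ℕ) : Type := Fin d → AddCircle (2 * Real.pi)

/-- Normalised Lebesgue (Haar) measure on `𝕋^d`: the product of the Haar probability measures. -/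
noncomputable def torusMeasure (d : ℕ) : Measure (Torus d) :=
  Measure.pi fun _ => AddCircle.haarAddCircle

/-- The character `e^{i k·x}`. (`fourier n x = exp (2 π i n x / T)` on `ℝ/Tℤ`, here `T = 2π`.) -/
noncomputable def chr {d : ℕ} (k : Fin d → ℤ) (x : Torus d) : ℂ := ∏ j, fourier (k j) (x j)

/-- The Fourier coefficient `f̂(k) = ∫ f(x) e^{-i k·x} dx`. -/
noncomputable def fhat {d : ℕ} (f : Torus d → ℂ) (k : Fin d → ℤ) : ℂ :=
  ∫ x, f x * conj (chr k x) ∂(torusMeasure d)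

/-- The rectangular partial sum `S_n f(x) = ∑_{|k_1| ≤ n_1, …, |k_d| ≤ n_d} f̂(k) e^{i k·x}`. -/
noncomputable def partialSum {d : ℕ} (f : Torus d → ℂ) (n : Fin d → ℕ) (x : Torus d) : ℂ :=
  ∑ k ∈ Fintype.piFinset (fun j => Finset.Icc (-(n j : ℤ)) (n j)), fhat f k * chr k x

/-- Convergence of the rectangular sums at `x` in the sense of Pringsheim: `S_n f(x)` has a limit
as `min_j n_j → ∞` (this is the filter `atTop` on `Fin d → ℕ` with the product order). -/
def PringsheimConverges {d : ℕ} (f : Torus d → ℂ) (x : Torus d) : Prop :=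
  ∃ L : ℂ, Tendsto (fun n : Fin d → ℕ => partialSum f n x) atTop (𝓝 L)

/-- The `L^p` modulus of continuity
`ω(δ, f)_p = sup { ‖f(· + h) - f‖_{L^p} : h ∈ ℝ^d, |h| ≤ δ }` (Euclidean `|h|`), in `[0, ∞]`. -/
noncomputable def modulus {d : ℕ} (p : ℝ) (f : Torus d → ℂ) (δ : ℝ) : ℝ≥0∞ :=
  ⨆ (h : EuclideanSpace ℝ (Fin d)) (_ : ‖h‖ ≤ δ),
    eLpNorm (fun x => f (x + fun j => ((h j : ℝ) : AddCircle (2 * Real.pi))) - f x)
      (ENNReal.ofReal p) (torusMeasure d)

/-- The condition of the question: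
`ω(δ, f)_p · (log (1/δ))^{d/p} · log log log (e^{e^e}/δ) → 0` as `δ → 0+`. -/
def ModulusCondition (d : ℕ) (p : ℝ) (f : Torus d → ℂ) : Prop :=
  Tendsto (fun δ : ℝ => modulus p f δ * ENNReal.ofReal ((Real.log (1 / δ)) ^ ((d : ℝ) / p) *
    Real.log (Real.log (Real.log (Real.exp (Real.exp (Real.exp 1)) / δ))))) (𝓝[>] 0) (𝓝 0)

end Pool.Agent.Work.MP_fa619e_an
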