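import Pool.Agent.Work.MP_fa619e_an.Defs

/-!
# The counterexample for `d = 2`, `p = 2`

Blocks: `P_j = 2^(2^j)`, `r = ⌊log₂ j⌋`, `i = j - 2^r`, `W_j = P_j / 2^r`, `h_j = 2π / P_j`,
`A_j(x, y) = (2^{-j} / P_j) ∑_{l=1}^{2 W_j} e^{i (2 P_j + l) x} D_{P_j}(y - y_{j,l})`,
`y_{j,l} = ((i - 1) W_j - 1 + l) h_j` (`D_n` is the Dirichlet kernel).  The function is
`f = ∑_j A_j`.  Then `‖A_j‖₂ ≤ 4 · 2^{-j} / √(j + 1)`, which gives the modulus of continuity, and for
`0 < |x| < π` and `y` in the `i`-th arc of the `r`-th subdivision a difference of two rectangular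
partial sums equals (up to a unimodular factor) `2^{-j} / P_j` times
`∑_{s < R} e^{-i s x} sin (θ (s + τ)) / sin ((s + τ) h_j / 2)` with `|θ - |x|| ≤ h_j / 2`, which is at
least a positive constant in absolute value (a discrete version of C. Fefferman's example).
-/

set_option autoImplicit false

open MeasureTheory Filter Topology
open scoped ENNReal ComplexConjugate

namespace Pool.Agent.Work.MP_fa619e_an

attribute [local instance] twoPiPos

variable {d : ℕ}

lemma isProb (d : ℕ) : IsProbabilityMeasure (torusMeasure d) := by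
  unfold torusMeasure; infer_instance

attribute [local instance] isProb

noncomputable def ek (k : Fin d → ℤ) : C(Torus d, ℂ) where
  toFun := chr k
  continuous_toFun := by unfold chr; fun_prop

lemma chr_norm (k : Fin d → ℤ) (x : Torus d) : ‖chr k x‖ = 1 := by
  simp only [chr, fourier_apply, norm_prod, Circle.norm_coe, Finset.prod_const_one]

lemma chr_add_right (k : Fin d → ℤ) (x y : Torus d) : chr k (x + y) = chr k x * chr k y := by
  simp only [chr, Pi.add_apply, fourier_apply, smul_add, AddCircle.toCircle_add, Circle.coe_mul,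
    Finset.prod_mul_distrib]

lemma chr_conj_mul (k l : Fin d → ℤ) (x : Torus d) : conj (chr k x) * chr l x = chr (l - k) x := by
  simp only [chr, map_prod, ← Finset.prod_mul_distrib, Pi.sub_apply]
  refine Finset.prod_congr rfl fun j _ => ?_
  rw [← fourier_neg, ← fourier_add]
  congr 1
  ring_nf

lemma chr_neg (k : Fin d → ℤ) (x : Torus d) : chr (-k) x = conj (chr k x) := by
  simp only [chr, map_prod, Pi.neg_apply, fourier_neg]

lemma integral_chr (k : Fin d → ℤ) : ∫ x, chr k x ∂(torusMeasure d) = if k = 0 then 1 else 0 := by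
  split_ifs with h
  · subst h
    simp [chr]
  · obtain ⟨i, hi⟩ := Function.ne_iff.mp h
    unfold chr torusMeasure
    rw [MeasureTheory.integral_fintype_prod_eq_prod (μ := fun _ => AddCircle.haarAddCircle)]
    apply Finset.prod_eq_zero (Finset.mem_univ i)
    exact integral_eq_zero_of_add_right_eq_neg (μ := AddCircle.haarAddCircle)
      (fourier_add_half_inv_index hi Real.two_pi_pos)

noncomputable def ekLp (k : Fin d → ℤ) : Lp ℂ 2 (torusMeasure d) :=
  ContinuousMap.toLp (E := ℂ) 2 (torusMeasure d) ℂ (ek k)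

lemma coeFn_ekLp (k : Fin d → ℤ) : (ekLp k : Torus d → ℂ) =ᵐ[torusMeasure d] chr k :=
  ContinuousMap.coeFn_toLp (torusMeasure d) (ek k)

lemma orthonormal_ekLp : Orthonormal ℂ (ekLp (d := d)) := by
  rw [orthonormal_iff_ite]
  intro k l
  rw [ekLp, ekLp, ContinuousMap.inner_toLp]
  have : ∀ x, (ek l) x * (starRingEnd ℂ) ((ek k) x) = chr (l - k) x := by
    intro x
    rw [mul_comm]
    exact chr_conj_mul k l x
  simp only [this]
  rw [integral_chr]
  by_cases h : k = l
  · simp [h]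
  · rw [if_neg h, if_neg (sub_ne_zero.mpr (Ne.symm h))]

lemma inner_ekLp (k : Fin d → ℤ) (f : Lp ℂ 2 (torusMeasure d)) :
    inner ℂ (ekLp k) f = fhat f k := by
  rw [MeasureTheory.L2.inner_def, fhat]
  refine integral_congr_ae ?_
  filter_upwards [coeFn_ekLp k] with x hx
  rw [hx]
  rfl

/-- translation by `v` -/
noncomputable def shiftv (v : Torus d) (x : Torus d) : Torus d := x + v

lemma mp_shiftv (v : Torus d) : MeasurePreserving (shiftv v) (torusMeasure d) (torusMeasure d) := by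
  have : Measure.IsAddHaarMeasure (torusMeasure d) := by unfold torusMeasure; infer_instance
  exact measurePreserving_add_right (torusMeasure d) v

noncomputable def trLp (v : Torus d) : Lp ℂ 2 (torusMeasure d) →+ Lp ℂ 2 (torusMeasure d) :=
  Lp.compMeasurePreserving (shiftv v) (mp_shiftv v)

lemma trLp_norm (v : Torus d) (f : Lp ℂ 2 (torusMeasure d)) : ‖trLp v f‖ = ‖f‖ :=
  Lp.norm_compMeasurePreserving f (mp_shiftv v)

lemma trLp_smul (v : Torus d) (c : ℂ) (f : Lp ℂ 2 (torusMeasure d)) :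
    trLp v (c • f) = c • trLp v f := by
  apply Lp.ext
  have h1 := Lp.coeFn_compMeasurePreserving (c • f) (mp_shiftv v)
  have h2 := Lp.coeFn_compMeasurePreserving f (mp_shiftv v)
  have h3 := Lp.coeFn_smul c (trLp v f)
  have h4 := (mp_shiftv v).quasiMeasurePreserving.ae_eq_comp (Lp.coeFn_smul c f)
  filter_upwards [h1, h2, h3, h4] with x h1 h2 h3 h4
  rw [h3]
  simp only [trLp, Pi.smul_apply, Function.comp_apply] at *
  rw [h1, h2, h4]

lemma trLp_ekLp (v : Torus d) (k : Fin d → ℤ) : trLp v (ekLp k) = chr k v • ekLp k := by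
  apply Lp.ext
  have h1 := Lp.coeFn_compMeasurePreserving (ekLp k) (mp_shiftv v)
  have h2 := coeFn_ekLp k
  have h3 := Lp.coeFn_smul (chr k v) (ekLp k)
  have h4 := (mp_shiftv v).quasiMeasurePreserving.ae_eq_comp (coeFn_ekLp k)
  filter_upwards [h1, h2, h3, h4] with x h1 h2 h3 h4
  rw [h3]
  simp only [trLp, Pi.smul_apply, Function.comp_apply, smul_eq_mul] at *
  rw [h1, h2, h4, shiftv, chr_add_right, mul_comm]

lemma eLpNorm_shift_sub (v : Torus d) (f : Lp ℂ 2 (torusMeasure d)) :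
    eLpNorm (fun x => f (x + v) - f x) 2 (torusMeasure d) = ENNReal.ofReal ‖trLp v f - f‖ := by
  have h1 := Lp.coeFn_compMeasurePreserving f (mp_shiftv v)
  have h2 := Lp.coeFn_sub (trLp v f) f
  have : (fun x => f (x + v) - f x) =ᵐ[torusMeasure d] (trLp v f - f : Lp ℂ 2 (torusMeasure d)) := by
    filter_upwards [h1, h2] with x h1 h2
    rw [h2, Pi.sub_apply]
    congr 1
    exact h1.symm
  rw [eLpNorm_congr_ae this, Lp.norm_def, ENNReal.ofReal_toReal (Lp.eLpNorm_ne_top _)]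



/-! ## One-dimensional estimates -/



/-- Dirichlet kernel -/
noncomputable def Dk (n : ℕ) (u : ℝ) : ℂ :=
  ∑ k ∈ Finset.Icc (-(n : ℤ)) n, Complex.exp (Complex.I * k * u)

lemma Icc_succ (n : ℕ) : Finset.Icc (-((n + 1 : ℕ) : ℤ)) ((n + 1 : ℕ) : ℤ) =
    insert (-((n : ℤ) + 1)) (insert ((n : ℤ) + 1) (Finset.Icc (-(n : ℤ)) n)) := by
  ext k
  simp only [Finset.mem_Icc, Finset.mem_insert]
  push_cast
  omega

lemma Dk_mul (n : ℕ) (u : ℝ) : Dk n u * (2 * Complex.I * Complex.sin (u / 2)) =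
    2 * Complex.I * Complex.sin ((n + 1 / 2) * u) := by
  have hs : ∀ z : ℂ, 2 * Complex.I * Complex.sin z =
      Complex.exp (z * Complex.I) - Complex.exp (-z * Complex.I) := by
    intro z
    rw [Complex.sin]
    have := Complex.I_mul_I
    linear_combination (Complex.exp (-z * Complex.I) - Complex.exp (z * Complex.I)) * this
  rw [hs, hs]
  induction n with
  | zero =>
    simp only [Dk, Nat.cast_zero, neg_zero, Finset.Icc_self, Finset.sum_singleton, Int.cast_zero,
      mul_zero, zero_mul, Complex.exp_zero, one_mul]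
    congr 2 <;> ring
  | succ n ih =>
    have e : Dk (n + 1) u = Complex.exp (Complex.I * (-((n : ℂ) + 1)) * u) +
        (Complex.exp (Complex.I * ((n : ℂ) + 1) * u) + Dk n u) := by
      rw [Dk, Icc_succ, Finset.sum_insert, Finset.sum_insert]
      · simp [Dk]
      · simp
      · simp only [Finset.mem_insert, Finset.mem_Icc, not_or]
        constructor
        · omega
        · omega
    rw [e, add_mul, add_mul, ih, mul_sub, mul_sub, ← Complex.exp_add, ← Complex.exp_add,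
      ← Complex.exp_add, ← Complex.exp_add]
    push_cast
    have e1 : Complex.I * (-((n : ℂ) + 1)) * u + u / 2 * Complex.I =
      -((n + 1 / 2) * u) * Complex.I := by ring
    have e2 : Complex.I * (-((n : ℂ) + 1)) * u + -(u / 2) * Complex.I =
      -(((n + 1) + 1 / 2) * u) * Complex.I := by ring
    have e3 : Complex.I * ((n : ℂ) + 1) * u + u / 2 * Complex.I =
      (((n + 1) + 1 / 2) * u) * Complex.I := by ring
    have e4 : Complex.I * ((n : ℂ) + 1) * u + -(u / 2) * Complex.I =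
      ((n + 1 / 2) * u) * Complex.I := by ring
    rw [e1, e2, e3, e4]
    ring

/-- Abel summation bound -/
lemma abel_bound (g : ℕ → ℝ) (R : ℕ) (hg0 : ∀ r ≤ R, 0 ≤ g r)
    (hg : ∀ r < R, g (r + 1) ≤ g r) (z : ℂ) (hz : ‖z‖ = 1) :
    ‖1 - z‖ * ‖∑ r ∈ Finset.range R, (g r : ℂ) * z ^ r‖ ≤ 2 * g 0 := by
  have key : ∀ Q ≤ R, ‖(1 - z) * ∑ r ∈ Finset.range Q, (g r : ℂ) * z ^ r + g Q * z ^ Q‖ ≤
      2 * g 0 - g Q := by
    intro Q
    induction Q with
    | zero =>
      intro _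
      simp only [Finset.range_zero, Finset.sum_empty, mul_zero, zero_add, pow_zero, mul_one]
      rw [Complex.norm_real, Real.norm_of_nonneg (hg0 0 (Nat.zero_le _))]
      linarith
    | succ Q ih =>
      intro hQ
      have ih' := ih (by omega)
      have e : (1 - z) * ∑ r ∈ Finset.range (Q + 1), (g r : ℂ) * z ^ r + g (Q + 1) * z ^ (Q + 1) =
          ((1 - z) * ∑ r ∈ Finset.range Q, (g r : ℂ) * z ^ r + g Q * z ^ Q) +
          ((g (Q + 1) - g Q : ℝ) : ℂ) * z ^ (Q + 1) := by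
        rw [Finset.sum_range_succ]
        push_cast
        ring
      rw [e]
      refine (norm_add_le _ _).trans ?_
      have e2 : ‖((g (Q + 1) - g Q : ℝ) : ℂ) * z ^ (Q + 1)‖ = g Q - g (Q + 1) := by
        rw [norm_mul, norm_pow, hz, one_pow, mul_one, Complex.norm_real,
          Real.norm_of_nonpos (by linarith [hg Q (by omega)])]
        ring
      rw [e2]
      linarith
  have h1 := key R le_rfl
  rw [← norm_mul]
  have e3 : (1 - z) * ∑ r ∈ Finset.range R, (g r : ℂ) * z ^ r =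
      ((1 - z) * ∑ r ∈ Finset.range R, (g r : ℂ) * z ^ r + g R * z ^ R) - g R * z ^ R := by ring
  rw [e3]
  refine (norm_sub_le _ _).trans ?_
  have e4 : ‖(g R : ℂ) * z ^ R‖ = g R := by
    rw [norm_mul, norm_pow, hz, one_pow, mul_one, Complex.norm_real,
      Real.norm_of_nonneg (hg0 R le_rfl)]
  rw [e4]
  linarith

lemma harmonic_lower (R : ℕ) : Real.log R - 1 ≤ ∑ r ∈ Finset.range R, (1 / ((r : ℝ) + 2)) := by
  have h := log_add_one_le_harmonic (R + 1)
  have h2 : ((harmonic (R + 1) : ℚ) : ℝ) = 1 + ∑ r ∈ Finset.range R, (1 / ((r : ℝ) + 2)) := by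
    rw [harmonic, Finset.sum_range_succ']
    push_cast
    rw [add_comm]
    congr 1
    · norm_num
    · refine Finset.sum_congr rfl fun r _ => ?_
      rw [one_div]
      congr 1
      ring
  rw [h2] at h
  rcases Nat.eq_zero_or_pos R with h0 | h0
  · subst h0; simp
  · have h3 : Real.log R ≤ Real.log (((R + 1 : ℕ) : ℝ) + 1) := by
      apply Real.log_le_log
      · exact_mod_cast h0
      · push_cast; linarith
    push_cast at h h3
    linarith

/-- the main sum -/
noncomputable def Gs (h τ θ x : ℝ) (R : ℕ) : ℂ :=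
  ∑ r ∈ Finset.range R, Complex.exp (-(Complex.I * r * x)) *
    ((Real.sin (θ * (r + τ)) / Real.sin ((r + τ) * h / 2) : ℝ) : ℂ)

lemma Gs_lower {h τ θ x : ℝ} {R : ℕ} (hh : 0 < h) (hτ1 : 1 ≤ τ) (hτ2 : τ ≤ 2)
    (hR : ((R : ℝ) + τ) * h ≤ Real.pi) (hθ : |θ - x| * R ≤ Real.pi / 3)
    {c : ℝ} (hc : 0 < c) (hcz : c ≤ ‖1 - Complex.exp (-(Complex.I * (θ + x)))‖) :
    (1 / h) * ((Real.log R - 1) / 2 - Real.pi / c) ≤ ‖Gs h τ θ x R‖ := by
  set g : ℕ → ℝ := fun r => 1 / Real.sin ((r + τ) * h / 2) with hg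
  have hpi := Real.pi_pos
  have hang : ∀ r ≤ R, 0 < (r + τ) * h / 2 ∧ (r + τ) * h / 2 ≤ Real.pi / 2 := by
    intro r hr
    have hr' : (r : ℝ) ≤ R := by exact_mod_cast hr
    refine ⟨by positivity, ?_⟩
    have : ((r : ℝ) + τ) * h ≤ (R + τ) * h := by gcongr
    linarith
  have hsin : ∀ r ≤ R, 0 < Real.sin ((r + τ) * h / 2) := by
    intro r hr
    obtain ⟨h1, h2⟩ := hang r hr
    exact Real.sin_pos_of_pos_of_lt_pi h1 (by linarith)
  have hgpos : ∀ r ≤ R, 0 < g r := fun r hr => by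
    simp only [hg]; exact one_div_pos.mpr (hsin r hr)
  have hganti : ∀ r < R, g (r + 1) ≤ g r := by
    intro r hr
    simp only [hg]
    apply one_div_le_one_div_of_le (hsin r hr.le)
    obtain ⟨h1, h2⟩ := hang (r + 1) hr
    push_cast at h1 h2 ⊢
    apply Real.sin_le_sin_of_le_of_le_pi_div_two _ h2
    · have : (r : ℝ) + τ ≤ r + 1 + τ := by linarith
      have := mul_le_mul_of_nonneg_right this hh.le
      linarith
    · have := (hang r hr.le).1
      linarith
  have hglow : ∀ r ≤ R, 2 / h * (1 / ((r : ℝ) + 2)) ≤ g r := by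
    intro r hr
    simp only [hg]
    have h1 := (hang r hr).1
    have h2 : Real.sin ((r + τ) * h / 2) ≤ (r + 2) * h / 2 := by
      refine (Real.sin_le h1.le).trans ?_
      have : ((r : ℝ) + τ) * h ≤ (r + 2) * h := by gcongr
      linarith
    have h3 : 2 / h * (1 / ((r : ℝ) + 2)) = 1 / ((r + 2) * h / 2) := by
      field_simp
    rw [h3]
    exact one_div_le_one_div_of_le (hsin r hr) h2
  have hg0 : g 0 ≤ Real.pi / h := by
    simp only [hg, Nat.cast_zero, zero_add]
    have h1 := hang 0 (Nat.zero_le _)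
    simp only [Nat.cast_zero, zero_add] at h1
    have h2 := Real.mul_le_sin h1.1.le h1.2
    have h3 : h / Real.pi ≤ Real.sin (τ * h / 2) := by
      refine le_trans ?_ h2
      have : 2 / Real.pi * (τ * h / 2) = τ * (h / Real.pi) := by field_simp
      rw [this]
      have : 0 < h / Real.pi := by positivity
      nlinarith
    rw [one_div]
    have h4 : (Real.pi / h) = (h / Real.pi)⁻¹ := by rw [inv_div]
    rw [h4]
    exact inv_anti₀ (by positivity) h3
  -- splitting
  set z1 : ℂ := Complex.exp (Complex.I * (θ - x)) with hz1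
  set z2 : ℂ := Complex.exp (-(Complex.I * (θ + x))) with hz2
  have hz2n : ‖z2‖ = 1 := by
    rw [hz2]
    have : -(Complex.I * (θ + x)) = ((-(θ + x) : ℝ) : ℂ) * Complex.I := by push_cast; ring
    rw [this, Complex.norm_exp_ofReal_mul_I]
  have hsplit : 2 * Complex.I * Gs h τ θ x R =
      Complex.exp (Complex.I * (θ * τ)) * (∑ r ∈ Finset.range R, (g r : ℂ) * z1 ^ r) -
      Complex.exp (-(Complex.I * (θ * τ))) * (∑ r ∈ Finset.range R, (g r : ℂ) * z2 ^ r) := by
    rw [Gs, Finset.mul_sum, Finset.mul_sum, Finset.mul_sum, ← Finset.sum_sub_distrib]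
    refine Finset.sum_congr rfl fun r _ => ?_
    have e1 : ((Real.sin (θ * (r + τ)) / Real.sin ((r + τ) * h / 2) : ℝ) : ℂ) =
        (g r : ℂ) * Complex.sin (θ * (r + τ)) := by
      simp only [hg]
      push_cast
      ring
    rw [e1]
    have hs : ∀ z : ℂ, 2 * Complex.I * Complex.sin z =
        Complex.exp (z * Complex.I) - Complex.exp (-z * Complex.I) := by
      intro z
      rw [Complex.sin]
      have := Complex.I_mul_I
      linear_combination (Complex.exp (-z * Complex.I) - Complex.exp (z * Complex.I)) * this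
    have e2 : 2 * Complex.I * (Complex.exp (-(Complex.I * r * x)) *
        ((g r : ℂ) * Complex.sin (θ * (r + τ)))) =
        (g r : ℂ) * (Complex.exp (-(Complex.I * r * x)) *
          (2 * Complex.I * Complex.sin (θ * (r + τ)))) := by ring
    rw [e2, hs, mul_sub, ← Complex.exp_add, ← Complex.exp_add, hz1, hz2, ← Complex.exp_nat_mul,
      ← Complex.exp_nat_mul, mul_sub]
    congr 1
    · rw [mul_left_comm (Complex.exp (Complex.I * (θ * τ))), ← Complex.exp_add]
      congr 2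
      ring
    · rw [mul_left_comm (Complex.exp (-(Complex.I * (θ * τ)))), ← Complex.exp_add]
      congr 2
      ring
  have hnorm : 2 * ‖Gs h τ θ x R‖ = ‖2 * Complex.I * Gs h τ θ x R‖ := by
    rw [norm_mul, norm_mul, Complex.norm_I]; norm_num
  have hA : ∑ r ∈ Finset.range R, g r * (1 / 2) ≤ ‖∑ r ∈ Finset.range R, (g r : ℂ) * z1 ^ r‖ := by
    refine le_trans ?_ (Complex.re_le_norm _)
    rw [Complex.re_sum]
    refine Finset.sum_le_sum fun r hr => ?_
    have hr' : r < R := Finset.mem_range.mp hr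
    rw [Complex.re_ofReal_mul]
    refine mul_le_mul_of_nonneg_left ?_ (hgpos r hr'.le).le
    rw [hz1, ← Complex.exp_nat_mul]
    have e3 : (r : ℂ) * (Complex.I * (θ - x)) = ((r * (θ - x) : ℝ) : ℂ) * Complex.I := by
      push_cast; ring
    rw [e3, Complex.exp_ofReal_mul_I_re]
    have h5 : |(r : ℝ) * (θ - x)| ≤ Real.pi / 3 := by
      rw [abs_mul, Nat.abs_cast, mul_comm]
      refine le_trans ?_ hθ
      have : (r : ℝ) ≤ R := by exact_mod_cast hr'.le
      gcongr
    rw [← Real.cos_abs, ← Real.cos_pi_div_three]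
    exact Real.cos_le_cos_of_nonneg_of_le_pi (abs_nonneg _) (by linarith) h5
  have hB := abel_bound g R (fun r hr => (hgpos r hr).le) hganti z2 hz2n
  have hB' : ‖∑ r ∈ Finset.range R, (g r : ℂ) * z2 ^ r‖ ≤ 2 * g 0 / c := by
    rw [le_div_iff₀ hc]
    refine le_trans ?_ hB
    rw [mul_comm]
    gcongr
  have hn1 : ‖Complex.exp (Complex.I * (θ * τ))‖ = 1 := by
    have : Complex.I * (θ * τ) = ((θ * τ : ℝ) : ℂ) * Complex.I := by push_cast; ring
    rw [this, Complex.norm_exp_ofReal_mul_I]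
  have hn2 : ‖Complex.exp (-(Complex.I * (θ * τ)))‖ = 1 := by
    have : -(Complex.I * (θ * τ)) = ((-(θ * τ) : ℝ) : ℂ) * Complex.I := by push_cast; ring
    rw [this, Complex.norm_exp_ofReal_mul_I]
  have hC : ‖∑ r ∈ Finset.range R, (g r : ℂ) * z1 ^ r‖ -
      ‖∑ r ∈ Finset.range R, (g r : ℂ) * z2 ^ r‖ ≤ 2 * ‖Gs h τ θ x R‖ := by
    rw [hnorm, hsplit]
    refine le_trans ?_ (norm_sub_norm_le _ _)
    rw [norm_mul, norm_mul, hn1, hn2, one_mul, one_mul]
  have hD : 2 / h * (Real.log R - 1) * (1/2) ≤ ∑ r ∈ Finset.range R, g r * (1 / 2) := by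
    rw [← Finset.sum_mul]
    refine mul_le_mul_of_nonneg_right ?_ (by norm_num)
    refine le_trans (mul_le_mul_of_nonneg_left (harmonic_lower R) (by positivity)) ?_
    rw [Finset.mul_sum]
    exact Finset.sum_le_sum fun r hr => hglow r (Finset.mem_range.mp hr).le
  have hE : 2 * g 0 / c ≤ 2 * (Real.pi / h) / c := by gcongr
  have hfin : 2 / h * (Real.log R - 1) * (1/2) - 2 * (Real.pi / h) / c ≤ 2 * ‖Gs h τ θ x R‖ := by
    linarith
  have e5 : 2 / h * (Real.log R - 1) * (1/2) - 2 * (Real.pi / h) / c =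
      2 * ((1 / h) * ((Real.log R - 1) / 2 - Real.pi / c)) := by
    field_simp
  rw [e5] at hfin
  linarith



/-! ## The blocks -/

def rr (j : ℕ) : ℕ := Nat.log 2 j
def ii (j : ℕ) : ℕ := j - 2 ^ rr j
def PP (j : ℕ) : ℕ := 2 ^ (2 ^ j)
def WW (j : ℕ) : ℕ := 2 ^ (2 ^ j - rr j)

noncomputable def Bset (j : ℕ) : Finset (Fin 2 → ℤ) :=
  Fintype.piFinset ![Finset.Icc (2 * PP j + 1 : ℤ) (2 * PP j + 2 * WW j),
    Finset.Icc (-(PP j : ℤ)) (PP j)]

/-- the node attached to the first frequency `a` -/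
noncomputable def node (j : ℕ) (a : ℤ) : ℝ :=
  ((((ii j : ℤ) - 1) * WW j - 1 + (a - 2 * PP j) : ℤ) : ℝ) * (2 * Real.pi / PP j)

noncomputable def coef (j : ℕ) (κ : Fin 2 → ℤ) : ℂ :=
  (((1 / 2) ^ j / PP j : ℝ) : ℂ) * Complex.exp (-(Complex.I * (κ 1) * (node j (κ 0))))

noncomputable def aj (j : ℕ) : Lp ℂ 2 (torusMeasure 2) := ∑ κ ∈ Bset j, coef j κ • ekLp κ

lemma PP_pos (j : ℕ) : 0 < PP j := by unfold PP; positivity
lemma WW_pos (j : ℕ) : 0 < WW j := by unfold WW; positivity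

lemma PP_two (j : ℕ) : 2 ≤ PP j := by
  unfold PP
  calc 2 = 2 ^ 1 := by norm_num
    _ ≤ 2 ^ (2 ^ j) := Nat.pow_le_pow_right (by norm_num) Nat.one_le_two_pow

lemma rr_le (j : ℕ) : rr j ≤ 2 ^ j := by
  unfold rr
  exact (Nat.log_le_self 2 j).trans Nat.lt_two_pow_self.le

lemma WW_mul (j : ℕ) : WW j * 2 ^ rr j = PP j := by
  unfold WW PP
  rw [← pow_add, Nat.sub_add_cancel (rr_le j)]

lemma WW_le (j : ℕ) : WW j ≤ PP j := by
  rw [← WW_mul]
  exact Nat.le_mul_of_pos_right _ (by positivity)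

lemma PP_succ (j : ℕ) : PP (j + 1) = PP j * PP j := by
  unfold PP
  rw [← pow_add, pow_succ]
  congr 1
  ring

lemma PP_mono {i j : ℕ} (h : i ≤ j) : PP i ≤ PP j := by
  unfold PP
  exact Nat.pow_le_pow_right (by norm_num) (Nat.pow_le_pow_right (by norm_num) h)

lemma two_PP_le (j : ℕ) : 2 * PP j ≤ PP (j + 1) := by
  rw [PP_succ]
  exact Nat.mul_le_mul_right _ (PP_two j)

lemma succ_le_two_pow_rr (j : ℕ) : j + 1 ≤ 2 ^ (rr j + 1) :=
  Nat.lt_pow_succ_log_self (by norm_num) j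

lemma coef_norm (j : ℕ) (κ : Fin 2 → ℤ) : ‖coef j κ‖ = (1 / 2) ^ j / PP j := by
  rw [coef, norm_mul, Complex.norm_real]
  have : -(Complex.I * (κ 1) * (node j (κ 0))) = ((-(κ 1 * node j (κ 0)) : ℝ) : ℂ) * Complex.I := by
    push_cast; ring
  rw [this, Complex.norm_exp_ofReal_mul_I, mul_one, Real.norm_of_nonneg (by positivity)]

lemma norm_sq_sum {ι E : Type*} [NormedAddCommGroup E] [InnerProductSpace ℂ E] {v : ι → E}
    (hv : Orthonormal ℂ v) (s : Finset ι) (c : ι → ℂ) :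
    ‖∑ i ∈ s, c i • v i‖ ^ 2 = ∑ i ∈ s, ‖c i‖ ^ 2 := by
  have h := hv.inner_sum c c s
  have h2 : ((‖∑ i ∈ s, c i • v i‖ ^ 2 : ℝ) : ℂ) = ((∑ i ∈ s, ‖c i‖ ^ 2 : ℝ) : ℂ) := by
    push_cast
    have h3 := inner_self_eq_norm_sq_to_K (𝕜 := ℂ) (∑ i ∈ s, c i • v i)
    refine (h3.symm.trans h).trans ?_
    refine Finset.sum_congr rfl fun i _ => ?_
    rw [mul_comm, Complex.mul_conj, Complex.normSq_eq_norm_sq]
    push_cast
    rfl
  exact_mod_cast h2

lemma card_Bset (j : ℕ) : (Bset j).card = 2 * WW j * (2 * PP j + 1) := by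
  rw [Bset, Fintype.card_piFinset]
  simp only [Fin.prod_univ_two, Matrix.cons_val_zero, Matrix.cons_val_one, Int.card_Icc]
  congr 1
  · omega
  · omega

/-- the bound `B_j` for the norms of the blocks -/
noncomputable def bb (j : ℕ) : ℝ := 4 * (1 / 2) ^ j / √((j : ℝ) + 1)

lemma sum_coef_sq_le (j : ℕ) : ∑ κ ∈ Bset j, ‖coef j κ‖ ^ 2 ≤ bb j ^ 2 := by
  simp only [coef_norm, Finset.sum_const, nsmul_eq_mul, card_Bset]
  have hP : (0 : ℝ) < PP j := by exact_mod_cast PP_pos j
  have hW : (0 : ℝ) < WW j := by exact_mod_cast WW_pos j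
  have hP2 : (2 : ℝ) ≤ PP j := by exact_mod_cast PP_two j
  have h1 : (WW j : ℝ) * 2 ^ rr j = PP j := by exact_mod_cast WW_mul j
  have h2 : ((j : ℝ) + 1) ≤ 2 ^ rr j * 2 := by
    have := succ_le_two_pow_rr j
    rw [pow_succ] at this
    exact_mod_cast this
  set q : ℝ := ((1 / 2 : ℝ) ^ j) ^ 2 with hq
  have hq0 : 0 < q := by positivity
  have e1 : ((1 / 2 : ℝ) ^ j / PP j) ^ 2 = q / (PP j : ℝ) ^ 2 := by rw [div_pow]
  have e2 : bb j ^ 2 = 16 * q / ((j : ℝ) + 1) := by
    rw [bb, div_pow, mul_pow, Real.sq_sqrt (by positivity)]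
    norm_num [hq]
  rw [e1, e2]
  push_cast
  rw [← mul_div_assoc, div_le_div_iff₀ (by positivity) (by positivity)]
  have h3 : (WW j : ℝ) * ((j : ℝ) + 1) ≤ 2 * PP j := by
    calc (WW j : ℝ) * ((j : ℝ) + 1) ≤ WW j * (2 ^ rr j * 2) := by gcongr
      _ = 2 * PP j := by rw [← h1]; ring
  have h4 : 2 * (WW j : ℝ) * (2 * PP j + 1) * ((j : ℝ) + 1) ≤ 12 * (PP j : ℝ) ^ 2 := by
    have : 2 * (WW j : ℝ) * (2 * PP j + 1) * ((j : ℝ) + 1) =
      2 * (2 * PP j + 1) * (WW j * ((j : ℝ) + 1)) := by ring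
    rw [this]
    calc 2 * (2 * (PP j : ℝ) + 1) * (WW j * ((j : ℝ) + 1)) ≤ 2 * (2 * PP j + 1) * (2 * PP j) := by
          gcongr
      _ ≤ 12 * (PP j : ℝ) ^ 2 := by nlinarith
  calc 2 * (WW j : ℝ) * (2 * PP j + 1) * q * ((j : ℝ) + 1)
      = (2 * (WW j : ℝ) * (2 * PP j + 1) * ((j : ℝ) + 1)) * q := by ring
    _ ≤ (12 * (PP j : ℝ) ^ 2) * q := by gcongr
    _ ≤ 16 * q * (PP j : ℝ) ^ 2 := by nlinarith [mul_pos hq0 (pow_pos hP 2)]

lemma bb_nonneg (j : ℕ) : 0 ≤ bb j := by unfold bb; positivity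

lemma aj_norm (j : ℕ) : ‖aj j‖ ≤ bb j := by
  have h := norm_sq_sum (orthonormal_ekLp (d := 2)) (Bset j) (coef j)
  have h2 : ‖aj j‖ ^ 2 ≤ bb j ^ 2 := by
    rw [aj, h]; exact sum_coef_sq_le j
  exact (sq_le_sq₀ (norm_nonneg _) (bb_nonneg j)).mp h2

/-- vector to torus -/
noncomputable def toT (h : EuclideanSpace ℝ (Fin 2)) : Torus 2 :=
  fun j => ((h j : ℝ) : AddCircle (2 * Real.pi))

lemma fourier_coe (n : ℤ) (x : ℝ) :
    (fourier n (x : AddCircle (2 * Real.pi)) : ℂ) = Complex.exp (Complex.I * n * x) := by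
  rw [fourier_coe_apply]
  congr 1
  have : (Real.pi : ℂ) ≠ 0 := by exact_mod_cast Real.pi_ne_zero
  push_cast
  field_simp

lemma chr_coe (κ : Fin 2 → ℤ) (a b : ℝ) :
    chr κ (![(a : AddCircle (2 * Real.pi)), (b : AddCircle (2 * Real.pi))]) =
      Complex.exp (Complex.I * (κ 0 * a + κ 1 * b)) := by
  simp only [chr, Fin.prod_univ_two, Matrix.cons_val_zero, Matrix.cons_val_one, fourier_coe]
  rw [← Complex.exp_add]
  congr 1
  ring

lemma toT_eq (h : EuclideanSpace ℝ (Fin 2)) :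
    toT h = ![((h 0 : ℝ) : AddCircle (2 * Real.pi)), ((h 1 : ℝ) : AddCircle (2 * Real.pi))] := by
  ext j
  fin_cases j <;> rfl

lemma chr_sub_one_le (j : ℕ) {κ : Fin 2 → ℤ} (hκ : κ ∈ Bset j) (h : EuclideanSpace ℝ (Fin 2)) :
    ‖chr κ (toT h) - 1‖ ≤ min 2 (5 * PP j * ‖h‖) := by
  refine le_min ?_ ?_
  · refine (norm_sub_le _ _).trans ?_
    rw [chr_norm]; norm_num
  · rw [toT_eq, chr_coe]
    have e : Complex.I * (κ 0 * ((h 0 : ℝ) : ℂ) + κ 1 * ((h 1 : ℝ) : ℂ)) =
      Complex.I * ((κ 0 * h 0 + κ 1 * h 1 : ℝ) : ℂ) := by push_cast; ring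
    rw [e]
    refine Real.norm_exp_I_mul_ofReal_sub_one_le.trans ?_
    rw [Real.norm_eq_abs]
    have h0 : |h 0| ≤ ‖h‖ := by simpa using EuclideanSpace.norm_eq h ▸ PiLp.norm_apply_le h 0
    have h1 : |h 1| ≤ ‖h‖ := by simpa using EuclideanSpace.norm_eq h ▸ PiLp.norm_apply_le h 1
    rw [Bset, Fintype.mem_piFinset] at hκ
    have k0 := hκ 0
    have k1 := hκ 1
    simp only [Matrix.cons_val_zero, Matrix.cons_val_one, Finset.mem_Icc] at k0 k1
    have hW := WW_le j
    have a0 : |(κ 0 : ℝ)| ≤ 4 * PP j := by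
      rw [abs_le]
      constructor
      · have : (0 : ℤ) ≤ κ 0 := by omega
        have : (0 : ℝ) ≤ κ 0 := by exact_mod_cast this
        have : (0 : ℝ) ≤ PP j := by positivity
        linarith
      · have : κ 0 ≤ 4 * PP j := by omega
        exact_mod_cast this
    have a1 : |(κ 1 : ℝ)| ≤ PP j := by
      rw [abs_le]
      constructor
      · exact_mod_cast k1.1
      · exact_mod_cast k1.2
    calc |(κ 0 : ℝ) * h 0 + κ 1 * h 1| ≤ |(κ 0 : ℝ) * h 0| + |(κ 1 : ℝ) * h 1| := abs_add_le _ _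
      _ = |(κ 0 : ℝ)| * |h 0| + |(κ 1 : ℝ)| * |h 1| := by rw [abs_mul, abs_mul]
      _ ≤ 4 * PP j * ‖h‖ + PP j * ‖h‖ := by gcongr
      _ = 5 * PP j * ‖h‖ := by ring

lemma aj_shift (j : ℕ) (h : EuclideanSpace ℝ (Fin 2)) :
    ‖trLp (toT h) (aj j) - aj j‖ ≤ min 2 (5 * PP j * ‖h‖) * bb j := by
  have e : trLp (toT h) (aj j) - aj j =
      ∑ κ ∈ Bset j, (coef j κ * (chr κ (toT h) - 1)) • ekLp κ := by
    rw [aj, map_sum, ← Finset.sum_sub_distrib]
    refine Finset.sum_congr rfl fun κ _ => ?_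
    rw [trLp_smul, trLp_ekLp, smul_smul, mul_sub, mul_one, sub_smul]
  have h1 := norm_sq_sum (orthonormal_ekLp (d := 2)) (Bset j)
    (fun κ => coef j κ * (chr κ (toT h) - 1))
  have hmin : 0 ≤ min 2 (5 * PP j * ‖h‖) := le_min (by norm_num) (by positivity)
  have h2 : ‖trLp (toT h) (aj j) - aj j‖ ^ 2 ≤ (min 2 (5 * PP j * ‖h‖) * bb j) ^ 2 := by
    rw [e, h1, mul_pow]
    calc ∑ κ ∈ Bset j, ‖coef j κ * (chr κ (toT h) - 1)‖ ^ 2
        ≤ ∑ κ ∈ Bset j, (min 2 (5 * PP j * ‖h‖)) ^ 2 * ‖coef j κ‖ ^ 2 := by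
          refine Finset.sum_le_sum fun κ hκ => ?_
          rw [norm_mul, mul_pow, mul_comm]
          gcongr
          exact chr_sub_one_le j hκ h
      _ = (min 2 (5 * PP j * ‖h‖)) ^ 2 * ∑ κ ∈ Bset j, ‖coef j κ‖ ^ 2 := by rw [Finset.mul_sum]
      _ ≤ (min 2 (5 * PP j * ‖h‖)) ^ 2 * bb j ^ 2 := by
          gcongr
          exact sum_coef_sq_le j
  exact (sq_le_sq₀ (norm_nonneg _) (mul_nonneg hmin (bb_nonneg j))).mp h2

lemma bb_le (j : ℕ) : bb j ≤ 4 * (1 / 2) ^ j := by
  unfold bb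
  apply div_le_self (by positivity)
  rw [Real.one_le_sqrt]
  have : (0 : ℝ) ≤ j := Nat.cast_nonneg j
  linarith

lemma summable_bb : Summable bb := by
  refine Summable.of_nonneg_of_le bb_nonneg bb_le ?_
  exact (summable_geometric_two).mul_left 4

lemma summable_aj : Summable aj :=
  Summable.of_norm_bounded summable_bb aj_norm

/-- the counterexample in `L²` -/
noncomputable def ff : Lp ℂ 2 (torusMeasure 2) := ∑' j, aj j


/-! ## Fourier coefficients -/

lemma mem_Bset {j : ℕ} {κ : Fin 2 → ℤ} : κ ∈ Bset j ↔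
    (2 * (PP j : ℤ) + 1 ≤ κ 0 ∧ κ 0 ≤ 2 * PP j + 2 * WW j) ∧
    (-(PP j : ℤ) ≤ κ 1 ∧ κ 1 ≤ PP j) := by
  rw [Bset, Fintype.mem_piFinset, Fin.forall_fin_two]
  simp only [Matrix.cons_val_zero, Matrix.cons_val_one, Finset.mem_Icc]

lemma Bset_disj {i j : ℕ} {κ : Fin 2 → ℤ} (hi : κ ∈ Bset i) (hj : κ ∈ Bset j) : i = j := by
  rw [mem_Bset] at hi hj
  rcases lt_trichotomy i j with h | h | h
  · exfalso
    have h1 : 2 * PP i ≤ PP j := (two_PP_le i).trans (PP_mono h)
    have h2 := WW_le i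
    have h1' : 2 * (PP i : ℤ) ≤ PP j := by exact_mod_cast h1
    have h2' : (WW i : ℤ) ≤ PP i := by exact_mod_cast h2
    omega
  · exact h
  · exfalso
    have h1 : 2 * PP j ≤ PP i := (two_PP_le j).trans (PP_mono h)
    have h2 := WW_le j
    have h1' : 2 * (PP j : ℤ) ≤ PP i := by exact_mod_cast h1
    have h2' : (WW j : ℤ) ≤ PP j := by exact_mod_cast h2
    omega

lemma inner_aj (κ : Fin 2 → ℤ) (j : ℕ) :
    inner ℂ (ekLp κ) (aj j) = if κ ∈ Bset j then coef j κ else 0 := by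
  split_ifs with h
  · exact (orthonormal_ekLp (d := 2)).inner_right_sum (coef j) h
  · rw [aj, inner_sum]
    refine Finset.sum_eq_zero fun l hl => ?_
    rw [inner_smul_right, (orthonormal_iff_ite.mp (orthonormal_ekLp (d := 2))) κ l, if_neg, mul_zero]
    rintro rfl
    exact h hl

lemma fhat_ff (κ : Fin 2 → ℤ) :
    HasSum (fun j => if κ ∈ Bset j then coef j κ else 0) (fhat (ff : Torus 2 → ℂ) κ) := by
  rw [← inner_ekLp]
  have h := (innerSL ℂ (ekLp κ)).hasSum summable_aj.hasSum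
  simp only [innerSL_apply_apply, inner_aj] at h
  exact h

lemma fhat_ff_mem {κ : Fin 2 → ℤ} {j : ℕ} (h : κ ∈ Bset j) :
    fhat (ff : Torus 2 → ℂ) κ = coef j κ := by
  have h1 := fhat_ff κ
  have h2 : HasSum (fun i => if κ ∈ Bset i then coef i κ else 0)
      (if κ ∈ Bset j then coef j κ else 0) := by
    refine hasSum_single j fun i hi => ?_
    rw [if_neg]
    intro hmem
    exact hi (Bset_disj hmem h)
  rw [if_pos h] at h2
  exact h1.unique h2

lemma fhat_ff_nonpos {κ : Fin 2 → ℤ} (h : κ 0 ≤ 0) :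
    fhat (ff : Torus 2 → ℂ) κ = 0 := by
  have h1 := fhat_ff κ
  have h2 : (fun i => if κ ∈ Bset i then coef i κ else 0) = fun _ => (0 : ℂ) := by
    funext i
    rw [if_neg]
    rw [mem_Bset]
    intro hmem
    have : (0 : ℤ) < PP i := by exact_mod_cast PP_pos i
    omega
  rw [h2] at h1
  exact h1.unique hasSum_zero

lemma sum_piFinset_two (s : Fin 2 → Finset ℤ) (F : (Fin 2 → ℤ) → ℂ) :
    ∑ k ∈ Fintype.piFinset s, F k = ∑ a ∈ s 0, ∑ b ∈ s 1, F ![a, b] := by
  rw [← Finset.sum_product']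
  symm
  refine Finset.sum_nbij' (fun p => ![p.1, p.2]) (fun k => (k 0, k 1)) ?_ ?_ ?_ ?_ ?_
  · rintro ⟨a, b⟩ h
    rw [Fintype.mem_piFinset, Fin.forall_fin_two]
    simpa using h
  · intro k h
    rw [Fintype.mem_piFinset, Fin.forall_fin_two] at h
    simpa using h
  · rintro ⟨a, b⟩ _
    rfl
  · intro k _
    ext i
    fin_cases i <;> rfl
  · rintro ⟨a, b⟩ _
    rfl

lemma partialSum_diff (j R n : ℕ) (hR : R ≤ 2 * WW j) (hn : n ≤ PP j) (x : Torus 2) :
    partialSum (ff : Torus 2 → ℂ) ![2 * PP j + R, n] x - partialSum (ff : Torus 2 → ℂ) ![2 * PP j, n] x =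
    ∑ r ∈ Finset.range R, ∑ k ∈ Finset.Icc (-(n : ℤ)) n,
      coef j ![2 * PP j + R - r, k] * chr ![2 * PP j + R - r, k] x := by
  set g : ℤ → ℂ := fun a => ∑ k ∈ Finset.Icc (-(n : ℤ)) n,
    fhat (ff : Torus 2 → ℂ) ![a, k] * chr ![a, k] x with hg
  have hg0 : ∀ a : ℤ, a ≤ 0 → g a = 0 := by
    intro a ha
    refine Finset.sum_eq_zero fun k _ => ?_
    rw [fhat_ff_nonpos (by simpa using ha), zero_mul]
  have hps : ∀ m : ℕ, partialSum (ff : Torus 2 → ℂ) ![m, n] x = ∑ a ∈ Finset.Icc (1 : ℤ) m, g a := by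
    intro m
    rw [partialSum, sum_piFinset_two]
    simp only [Matrix.cons_val_zero, Matrix.cons_val_one]
    symm
    refine Finset.sum_subset ?_ ?_
    · intro a ha
      simp only [Finset.mem_Icc] at ha ⊢
      omega
    · intro a ha1 ha2
      apply hg0
      simp only [Finset.mem_Icc] at ha1 ha2
      omega
  have h1 := hps (2 * PP j + R)
  have h2 := hps (2 * PP j)
  rw [h1, h2]
  have hunion : Finset.Icc (1 : ℤ) ((2 * PP j + R : ℕ) : ℤ) =
      Finset.Icc (1 : ℤ) ((2 * PP j : ℕ) : ℤ) ∪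
        Finset.Icc (2 * (PP j : ℤ) + 1) (2 * PP j + R) := by
    ext a
    simp only [Finset.mem_Icc, Finset.mem_union]
    push_cast
    omega
  rw [hunion, Finset.sum_union, add_sub_cancel_left]
  · symm
    refine Finset.sum_nbij' (fun r : ℕ => (2 * (PP j : ℤ) + R - r))
      (fun a : ℤ => (2 * (PP j : ℤ) + R - a).toNat) ?_ ?_ ?_ ?_ ?_
    · intro r hr
      simp only [Finset.mem_range, Finset.mem_Icc] at hr ⊢
      omega
    · intro a ha
      simp only [Finset.mem_range, Finset.mem_Icc] at ha ⊢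
      omega
    · intro r hr
      simp only [Finset.mem_range] at hr
      omega
    · intro a ha
      simp only [Finset.mem_Icc] at ha
      omega
    · intro r hr
      simp only [Finset.mem_range] at hr
      simp only [hg]
      refine Finset.sum_congr rfl fun k hk => ?_
      rw [fhat_ff_mem (j := j)]
      rw [mem_Bset]
      simp only [Finset.mem_Icc] at hk
      simp only [Matrix.cons_val_zero, Matrix.cons_val_one]
      omega
  · rw [Finset.disjoint_left]
    intro a ha hb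
    simp only [Finset.mem_Icc] at ha hb
    push_cast at ha
    omega

lemma inner_sum_eq (j n : ℕ) (a : ℤ) (ξ η : ℝ) :
    ∑ k ∈ Finset.Icc (-(n : ℤ)) n, coef j ![a, k] *
      chr ![a, k] (![(ξ : AddCircle (2 * Real.pi)), (η : AddCircle (2 * Real.pi))]) =
    (((1 / 2) ^ j / PP j : ℝ) : ℂ) * (Complex.exp (Complex.I * a * ξ) * Dk n (η - node j a)) := by
  rw [Dk, Finset.mul_sum, Finset.mul_sum]
  refine Finset.sum_congr rfl fun k _ => ?_
  rw [coef, chr_coe]
  simp only [Matrix.cons_val_zero, Matrix.cons_val_one]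
  rw [mul_assoc, ← Complex.exp_add, ← Complex.exp_add]
  congr 2
  push_cast
  ring

/-- the difference of partial sums in terms of `Gs` -/
lemma partialSum_diff_eq {j R n q : ℕ} {ξ η τ θ h : ℝ} (hR : R ≤ 2 * WW j) (hn : n ≤ PP j)
    (hh : h = 2 * Real.pi / PP j) (hθ : θ = (n + 1 / 2) * h)
    (hq : (R : ℤ) = q - ((ii j : ℤ) - 1) * WW j) (hη : η = (q - 1 + τ) * h)
    (hτ1 : 1 ≤ τ) (hRh : ((R : ℝ) + τ) * h ≤ Real.pi) :
    ‖partialSum (ff : Torus 2 → ℂ) ![2 * PP j + R, n]
        (![(ξ : AddCircle (2 * Real.pi)), (η : AddCircle (2 * Real.pi))]) -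
      partialSum (ff : Torus 2 → ℂ) ![2 * PP j, n]
        (![(ξ : AddCircle (2 * Real.pi)), (η : AddCircle (2 * Real.pi))])‖ =
    (1 / 2) ^ j / PP j * ‖Gs h τ θ ξ R‖ := by
  have hP : (0 : ℝ) < PP j := by exact_mod_cast PP_pos j
  have hpi := Real.pi_pos
  have hh0 : 0 < h := by rw [hh]; positivity
  rw [partialSum_diff j R n hR hn]
  simp only [inner_sum_eq]
  rw [← Finset.mul_sum, norm_mul, Complex.norm_real, Real.norm_of_nonneg (by positivity)]
  congr 1
  have hterm : ∀ r ∈ Finset.range R,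
      Complex.exp (Complex.I * ((2 * PP j + R - r : ℤ) : ℂ) * ξ) *
        Dk n (η - node j (2 * PP j + R - r)) =
      Complex.exp (Complex.I * ((2 * PP j + R : ℤ) : ℂ) * ξ) *
      (Complex.exp (-(Complex.I * r * ξ)) *
      ((Real.sin (θ * (r + τ)) / Real.sin ((r + τ) * h / 2) : ℝ) : ℂ)) := by
    intro r hr
    have hr' : (r : ℝ) < R := by exact_mod_cast Finset.mem_range.mp hr
    have hu : η - node j (2 * PP j + R - r) = (r + τ) * h := by
      rw [node, ← hh]
      have e : ((((ii j : ℤ) - 1) * WW j - 1 + ((2 * PP j + R - r : ℤ) - 2 * PP j) : ℤ) : ℝ) =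
          (q : ℝ) - 1 - r := by
        have : (((ii j : ℤ) - 1) * WW j - 1 + ((2 * PP j + R - r : ℤ) - 2 * PP j) : ℤ) =
          (q : ℤ) - 1 - r := by linarith
        rw [this]
        push_cast
        ring
      rw [e, hη]
      ring
    rw [hu, ← mul_assoc, ← Complex.exp_add]
    have hs : Real.sin ((r + τ) * h / 2) ≠ 0 := by
      apply ne_of_gt
      apply Real.sin_pos_of_pos_of_lt_pi
      · positivity
      · have : ((r : ℝ) + τ) * h ≤ (R + τ) * h := by gcongr
        linarith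
    have hs' : Complex.sin ((((r + τ) * h : ℝ) : ℂ) / 2) ≠ 0 := by
      have e : (((r + τ) * h : ℝ) : ℂ) / 2 = (((r + τ) * h / 2 : ℝ) : ℂ) := by push_cast; ring
      rw [e, ← Complex.ofReal_sin]
      exact_mod_cast hs
    have hD : Dk n ((r + τ) * h) =
        ((Real.sin (θ * (r + τ)) / Real.sin ((r + τ) * h / 2) : ℝ) : ℂ) := by
      have h1 := Dk_mul n ((r + τ) * h)
      have h2 : Dk n ((r + τ) * h) * Complex.sin ((((r + τ) * h : ℝ) : ℂ) / 2) =
          Complex.sin (((n : ℂ) + 1 / 2) * (((r + τ) * h : ℝ) : ℂ)) := by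
        have hI : (2 * Complex.I) ≠ 0 := by simp
        apply mul_left_cancel₀ hI
        linear_combination h1
      rw [Complex.ofReal_div, eq_div_iff, Complex.ofReal_sin, Complex.ofReal_sin]
      · have e : (((r + τ) * h / 2 : ℝ) : ℂ) = (((r + τ) * h : ℝ) : ℂ) / 2 := by push_cast; ring
        rw [e, h2, hθ]
        congr 1
        push_cast
        ring
      · exact_mod_cast hs
    rw [hD]
    congr 2
    push_cast
    ring
  rw [Finset.sum_congr rfl hterm, ← Finset.mul_sum, norm_mul]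
  have hn1 : ‖Complex.exp (Complex.I * ((2 * PP j + R : ℤ) : ℂ) * ξ)‖ = 1 := by
    have : Complex.I * ((2 * PP j + R : ℤ) : ℂ) * ξ = (((2 * PP j + R) * ξ : ℝ) : ℂ) * Complex.I := by
      push_cast; ring
    rw [this, Complex.norm_exp_ofReal_mul_I]
  rw [hn1, one_mul, Gs]


/-! ## Divergence -/

lemma Gs_neg (h τ θ x : ℝ) (R : ℕ) : ‖Gs h τ θ (-x) R‖ = ‖Gs h τ θ x R‖ := by
  rw [← RCLike.norm_conj (Gs h τ θ x R)]
  congr 1
  rw [Gs, Gs, map_sum]
  refine Finset.sum_congr rfl fun r _ => ?_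
  rw [map_mul, Complex.conj_ofReal, ← Complex.exp_conj]
  congr 2
  simp only [map_neg, map_mul, Complex.conj_I, Complex.conj_ofReal, Complex.ofReal_neg]
  rw [Complex.conj_natCast]
  ring

lemma Gs_abs (h τ θ x : ℝ) (R : ℕ) : ‖Gs h τ θ x R‖ = ‖Gs h τ θ |x| R‖ := by
  rcases abs_choice x with hx | hx
  · rw [hx]
  · rw [hx, Gs_neg]

lemma diff_lower {ξ η c δ₀ : ℝ} (hξ : |ξ| < Real.pi) (hη0 : 0 ≤ η) (hη1 : η < 2 * Real.pi)
    (hc : 0 < c) (hcδ : ∀ θ : ℝ, abs (θ - abs ξ) ≤ δ₀ → c ≤ ‖1 - Complex.exp (-(Complex.I * (θ + |ξ|)))‖)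
    (r : ℕ) (hr : 3 ≤ r) :
    ∃ j R : ℕ, 2 ^ r ≤ j ∧ rr j = r ∧ (2 * Real.pi / PP j ≤ δ₀ →
      (1 / (2 * Real.pi)) * ((1 / 2) ^ j * ((((2 ^ j - r : ℕ) : ℝ) * Real.log 2 - 1) / 2 - Real.pi / c)) ≤
      ‖partialSum (ff : Torus 2 → ℂ) ![2 * PP j + R, ⌊|ξ| / (2 * Real.pi / PP j)⌋₊]
        (![(ξ : AddCircle (2 * Real.pi)), (η : AddCircle (2 * Real.pi))]) -
      partialSum (ff : Torus 2 → ℂ) ![2 * PP j, ⌊|ξ| / (2 * Real.pi / PP j)⌋₊]
        (![(ξ : AddCircle (2 * Real.pi)), (η : AddCircle (2 * Real.pi))])‖) := by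
  have hpi := Real.pi_pos
  set i : ℕ := ⌊η * 2 ^ r / (2 * Real.pi)⌋₊ with hi
  have hi0 : 0 ≤ η * 2 ^ r / (2 * Real.pi) := by positivity
  have hi1 : (i : ℝ) ≤ η * 2 ^ r / (2 * Real.pi) := Nat.floor_le hi0
  have hi2 : η * 2 ^ r / (2 * Real.pi) < i + 1 := Nat.lt_floor_add_one _
  have hi3 : i < 2 ^ r := by
    have : (i : ℝ) < 2 ^ r := by
      refine lt_of_le_of_lt hi1 ?_
      rw [div_lt_iff₀ (by positivity)]
      have : (0 : ℝ) < 2 ^ r := by positivity
      nlinarith
    exact_mod_cast this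
  set j : ℕ := 2 ^ r + i with hj
  have hrr : rr j = r := by
    unfold rr
    refine Nat.log_eq_of_pow_le_of_lt_pow ?_ ?_
    · omega
    · rw [pow_succ]; omega
  have hii : ii j = i := by
    unfold ii
    rw [hrr]
    omega
  have hPW : WW j * 2 ^ r = PP j := by
    have := WW_mul j
    rwa [hrr] at this
  have hPWr : (WW j : ℝ) * 2 ^ r = PP j := by exact_mod_cast hPW
  have hP : (0 : ℝ) < PP j := by exact_mod_cast PP_pos j
  have hW : (0 : ℝ) < WW j := by exact_mod_cast WW_pos j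
  have hW1 : (1 : ℝ) ≤ WW j := by exact_mod_cast WW_pos j
  set h : ℝ := 2 * Real.pi / PP j with hh
  have hh0 : 0 < h := by positivity
  set t : ℝ := η / h with ht
  have ht_eq : t = (η * 2 ^ r / (2 * Real.pi)) * WW j := by
    rw [ht, hh, ← hPWr]
    field_simp
  have ht0 : 0 ≤ t := by positivity
  have ht1 : (i : ℝ) * WW j ≤ t := by rw [ht_eq]; gcongr
  have ht2 : t < (i + 1) * WW j := by rw [ht_eq]; gcongr
  set q : ℕ := ⌊t⌋₊ with hq
  have hq1 : (q : ℝ) ≤ t := Nat.floor_le ht0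
  have hq2 : t < q + 1 := Nat.lt_floor_add_one t
  have hq3 : i * WW j ≤ q := by
    rw [hq]
    apply Nat.le_floor
    push_cast
    exact ht1
  have hq4 : q < (i + 1) * WW j := by
    have : (q : ℝ) < (i + 1) * WW j := lt_of_le_of_lt hq1 ht2
    exact_mod_cast this
  set R : ℕ := q - i * WW j + WW j with hR
  have hRW : WW j ≤ R := by omega
  have hR2 : R + 1 ≤ 2 * WW j := by
    have : (i + 1) * WW j = i * WW j + WW j := by ring
    omega
  set n : ℕ := ⌊|ξ| / h⌋₊ with hn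
  have hn0 : 0 ≤ |ξ| / h := by positivity
  have hn1 : (n : ℝ) ≤ |ξ| / h := Nat.floor_le hn0
  have hn2 : |ξ| / h < n + 1 := Nat.lt_floor_add_one _
  have hn3 : n ≤ PP j := by
    have : (n : ℝ) ≤ PP j := by
      refine hn1.trans ?_
      rw [div_le_iff₀ hh0, hh]
      have : (PP j : ℝ) * (2 * Real.pi / PP j) = 2 * Real.pi := by field_simp
      rw [this]
      linarith
    exact_mod_cast this
  refine ⟨j, R, by omega, hrr, fun hδ => ?_⟩
  have hθ1 : abs (((n : ℝ) + 1 / 2) * h - abs ξ) ≤ h / 2 := by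
    rw [abs_le]
    rw [le_div_iff₀ hh0] at hn1
    rw [div_lt_iff₀ hh0] at hn2
    constructor <;> linarith
  have hR2' : (R : ℝ) + 1 ≤ 2 * WW j := by exact_mod_cast hR2
  have h2r : (8 : ℝ) ≤ 2 ^ r := by
    calc (8 : ℝ) = 2 ^ 3 := by norm_num
      _ ≤ 2 ^ r := pow_le_pow_right₀ (by norm_num) hr
  have hWh : (WW j : ℝ) * h ≤ Real.pi / 4 := by
    rw [hh, ← hPWr]
    have : (WW j : ℝ) * (2 * Real.pi / (WW j * 2 ^ r)) = 2 * Real.pi / 2 ^ r := by
      field_simp
    rw [this, div_le_div_iff₀ (by positivity) (by norm_num)]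
    nlinarith
  have hτ2 : t - q + 1 ≤ 2 := by linarith
  have hτ1 : 1 ≤ t - q + 1 := by linarith
  have hRh : ((R : ℝ) + (t - q + 1)) * h ≤ Real.pi := by
    have : ((R : ℝ) + (t - q + 1)) * h ≤ (3 * WW j) * h := by
      apply mul_le_mul_of_nonneg_right _ hh0.le
      linarith
    nlinarith
  rw [partialSum_diff_eq (q := q) (τ := t - q + 1) (θ := ((n : ℝ) + 1 / 2) * h) (h := h)
    (by omega) hn3 hh rfl ?_ ?_ hτ1 hRh]
  · rw [Gs_abs]
    have hlow := Gs_lower (h := h) (τ := t - q + 1) (θ := ((n : ℝ) + 1 / 2) * h) (x := |ξ|) (R := R)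
      hh0 hτ1 hτ2 hRh ?_ hc ?_
    · have hlogR : (((2 ^ j - r : ℕ) : ℝ) * Real.log 2) ≤ Real.log R := by
        have h1 : Real.log (WW j) ≤ Real.log R := by
          apply Real.log_le_log hW
          exact_mod_cast hRW
        refine le_trans (le_of_eq ?_) h1
        unfold WW
        rw [hrr]
        push_cast
        rw [Real.log_pow]
      have hmono : (1 / h) * (((((2 ^ j - r : ℕ) : ℝ) * Real.log 2) - 1) / 2 - Real.pi / c) ≤
          ‖Gs h (t - q + 1) (((n : ℝ) + 1 / 2) * h) |ξ| R‖ := by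
        refine le_trans ?_ hlow
        gcongr
      have e : (1 / (2 * Real.pi)) * ((1 / 2) ^ j * ((((2 ^ j - r : ℕ) : ℝ) * Real.log 2 - 1) / 2 -
          Real.pi / c)) = (1 / 2) ^ j / PP j * ((1 / h) * (((((2 ^ j - r : ℕ) : ℝ) * Real.log 2) - 1) / 2 -
            Real.pi / c)) := by
        rw [hh]
        field_simp
      rw [e]
      gcongr
    · have : (R : ℝ) ≤ 2 * WW j := by linarith
      calc abs (((n : ℝ) + 1 / 2) * h - abs ξ) * R ≤ h / 2 * (2 * WW j) := by gcongr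
        _ = WW j * h := by ring
        _ ≤ Real.pi / 3 := by linarith
    · have := hcδ (((n : ℝ) + 1 / 2) * h) (by linarith)
      push_cast at this ⊢
      exact this
  · rw [hii, hR]
    have e : ((q - i * WW j + WW j : ℕ) : ℤ) = (q : ℤ) - i * WW j + WW j := by
      rw [Nat.cast_add, Nat.cast_sub hq3]
      push_cast
      ring
    rw [e]
    ring
  · rw [ht]
    field_simp
    ring

lemma tendsto_PP : Tendsto (fun j : ℕ => (PP j : ℝ)) atTop atTop := by
  refine tendsto_atTop_mono (f := fun j : ℕ => (j : ℝ)) (fun j => ?_) tendsto_natCast_atTop_atTop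
  have : j ≤ PP j := by
    unfold PP
    exact Nat.lt_two_pow_self.le.trans Nat.lt_two_pow_self.le
  exact_mod_cast this

theorem ff_diverges {ξ η : ℝ} (hξ0 : ξ ≠ 0) (hξ : |ξ| < Real.pi) (hη0 : 0 ≤ η)
    (hη1 : η < 2 * Real.pi) : ¬ PringsheimConverges (ff : Torus 2 → ℂ)
      (![(ξ : AddCircle (2 * Real.pi)), (η : AddCircle (2 * Real.pi))]) := by
  rintro ⟨L, hL⟩
  have hpi := Real.pi_pos
  have hlog2 : 0 < Real.log 2 := Real.log_pos (by norm_num)
  have hξ1 : 0 < |ξ| := abs_pos.mpr hξ0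
  -- the constant c
  have hne : 0 < ‖1 - Complex.exp (-(Complex.I * ((|ξ| : ℝ) + |ξ|)))‖ := by
    rw [norm_pos_iff, sub_ne_zero]
    intro h
    have h2 := Complex.exp_eq_one_iff.mp h.symm
    obtain ⟨k, hk⟩ := h2
    have h3 : ((-(2 * |ξ|) : ℝ) : ℂ) = ((2 * k * Real.pi : ℝ) : ℂ) := by
      apply mul_right_cancel₀ Complex.I_ne_zero
      push_cast
      linear_combination hk
    have h4 : -(2 * |ξ|) = 2 * k * Real.pi := by exact_mod_cast h3
    have h5 : |ξ| = -(k : ℝ) * Real.pi := by linarith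
    have h6 : (0 : ℝ) < -(k : ℝ) := by
      by_contra hcon
      push Not at hcon
      nlinarith
    have h7 : -(k : ℝ) < 1 := by
      by_contra hcon
      push Not at hcon
      nlinarith
    have h8 : (0 : ℤ) < -k := by exact_mod_cast h6
    have h9 : -k < (1 : ℤ) := by exact_mod_cast h7
    omega
  set c : ℝ := ‖1 - Complex.exp (-(Complex.I * ((|ξ| : ℝ) + |ξ|)))‖ / 2 with hc
  have hc0 : 0 < c := by positivity
  have hcont : Continuous (fun θ : ℝ => ‖1 - Complex.exp (-(Complex.I * ((θ : ℂ) + |ξ|)))‖) := by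
    fun_prop
  have hev : ∀ᶠ θ : ℝ in 𝓝 (abs ξ), c < ‖1 - Complex.exp (-(Complex.I * ((θ : ℂ) + |ξ|)))‖ := by
    apply hcont.continuousAt.eventually_const_lt
    rw [hc]
    linarith
  rw [Metric.eventually_nhds_iff] at hev
  obtain ⟨δ₁, hδ₁, hev⟩ := hev
  have hcδ : ∀ θ : ℝ, abs (θ - abs ξ) ≤ δ₁ / 2 →
      c ≤ ‖1 - Complex.exp (-(Complex.I * (θ + |ξ|)))‖ := by
    intro θ hθ
    apply le_of_lt
    apply hev
    rw [Real.dist_eq]
    linarith
  -- from the limit
  set c1 : ℝ := Real.log 2 / (8 * Real.pi) with hc1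
  have hc1pos : 0 < c1 := by positivity
  rw [Metric.tendsto_atTop] at hL
  obtain ⟨N, hN⟩ := hL (c1 / 2) (by positivity)
  -- eventually conditions
  have E1 : ∀ᶠ j : ℕ in atTop, (1 / 2 : ℝ) ^ j * ((j : ℝ) * Real.log 2 / 2 + 1 / 2 + Real.pi / c) <
      Real.log 2 / 4 := by
    have h1 : Tendsto (fun j : ℕ => (j : ℝ) * (1 / 2 : ℝ) ^ j) atTop (𝓝 0) :=
      tendsto_self_mul_const_pow_of_lt_one (by norm_num) (by norm_num)
    have h2 : Tendsto (fun j : ℕ => (1 / 2 : ℝ) ^ j) atTop (𝓝 0) :=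
      tendsto_pow_atTop_nhds_zero_of_lt_one (by norm_num) (by norm_num)
    have h3 : Tendsto (fun j : ℕ => (Real.log 2 / 2) * ((j : ℝ) * (1 / 2 : ℝ) ^ j) +
        (1 / 2 + Real.pi / c) * (1 / 2 : ℝ) ^ j) atTop (𝓝 ((Real.log 2 / 2) * 0 +
          (1 / 2 + Real.pi / c) * 0)) := (h1.const_mul _).add (h2.const_mul _)
    rw [mul_zero, mul_zero, add_zero] at h3
    have h4 := h3.eventually_lt_const (u := Real.log 2 / 4) (by positivity)
    filter_upwards [h4] with j hj
    refine lt_of_eq_of_lt ?_ hj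
    ring
  have E2 : ∀ᶠ j : ℕ in atTop, 2 * Real.pi / PP j < δ₁ / 2 := by
    have := (tendsto_const_nhds (x := 2 * Real.pi)).div_atTop tendsto_PP
    exact this.eventually_lt_const (by positivity)
  have E3 : ∀ᶠ j : ℕ in atTop, (N 0 : ℝ) ≤ PP j := tendsto_PP.eventually_ge_atTop _
  have E4 : ∀ᶠ j : ℕ in atTop, (N 1 : ℝ) ≤ |ξ| / (2 * Real.pi) * PP j :=
    (tendsto_PP.const_mul_atTop (by positivity)).eventually_ge_atTop _
  obtain ⟨j0, hj0⟩ := eventually_atTop.mp (E1.and (E2.and (E3.and E4)))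
  obtain ⟨j, R, hjr, hrr, hdiff⟩ := diff_lower hξ hη0 hη1 hc0 hcδ (max 3 j0) (le_max_left _ _)
  have hjj0 : j0 ≤ j := (le_max_right 3 j0).trans (Nat.lt_two_pow_self.le.trans hjr)
  obtain ⟨F1, F2, F3, F4⟩ := hj0 j hjj0
  have hP : (0 : ℝ) < PP j := by exact_mod_cast PP_pos j
  have hd := hdiff F2.le
  set n : ℕ := ⌊|ξ| / (2 * Real.pi / PP j)⌋₊ with hn
  have hn1 : N 1 ≤ n := by
    rw [hn]
    apply Nat.le_floor
    refine F4.trans (le_of_eq ?_)
    field_simp
  have hP1 : N 0 ≤ 2 * PP j := by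
    have : N 0 ≤ PP j := by exact_mod_cast F3
    omega
  have hge1 : (![2 * PP j + R, n] : Fin 2 → ℕ) ≥ N := by
    intro a
    fin_cases a
    · simp; omega
    · simpa using hn1
  have hge2 : (![2 * PP j, n] : Fin 2 → ℕ) ≥ N := by
    intro a
    fin_cases a
    · simpa using hP1
    · simpa using hn1
  have hd1 := hN _ hge1
  have hd2 := hN _ hge2
  have hlt : ‖partialSum (ff : Torus 2 → ℂ) ![2 * PP j + R, n]
        (![(ξ : AddCircle (2 * Real.pi)), (η : AddCircle (2 * Real.pi))]) -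
      partialSum (ff : Torus 2 → ℂ) ![2 * PP j, n]
        (![(ξ : AddCircle (2 * Real.pi)), (η : AddCircle (2 * Real.pi))])‖ < c1 := by
    rw [← dist_eq_norm]
    refine lt_of_le_of_lt (dist_triangle_right _ _ L) ?_
    linarith
  have hcontra : c1 ≤ (1 / (2 * Real.pi)) * ((1 / 2) ^ j *
      ((((2 ^ j - (max 3 j0) : ℕ) : ℝ) * Real.log 2 - 1) / 2 - Real.pi / c)) := by
    have hr : max 3 j0 ≤ 2 ^ j := by rw [← hrr]; exact rr_le j
    have hr' : ((max 3 j0 : ℕ) : ℝ) ≤ j := by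
      have : max 3 j0 ≤ j := Nat.lt_two_pow_self.le.trans hjr
      exact_mod_cast this
    rw [Nat.cast_sub hr]
    push_cast
    push_cast at hr'
    have e1 : (1 / 2 : ℝ) ^ j * ((((2 ^ j : ℝ) - max 3 (j0 : ℝ)) * Real.log 2 - 1) / 2 - Real.pi / c) =
        Real.log 2 / 2 - (1 / 2 : ℝ) ^ j * (max 3 (j0 : ℝ) * Real.log 2 / 2 + 1 / 2 + Real.pi / c) := by
      have : (1 / 2 : ℝ) ^ j * 2 ^ j = 1 := by rw [← mul_pow]; norm_num
      linear_combination (Real.log 2 / 2) * this
    rw [e1]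
    have e2 : (1 / 2 : ℝ) ^ j * (max 3 (j0 : ℝ) * Real.log 2 / 2 + 1 / 2 + Real.pi / c) ≤
        (1 / 2 : ℝ) ^ j * ((j : ℝ) * Real.log 2 / 2 + 1 / 2 + Real.pi / c) := by
      gcongr
    have e3 : c1 = (1 / (2 * Real.pi)) * (Real.log 2 / 4) := by
      rw [hc1]
      field_simp
      norm_num
    rw [e3]
    gcongr
    linarith
  linarith


/-! ## Modulus of continuity -/

noncomputable def Om (δ : ℝ) : ℝ := ∑' j, min 2 (5 * PP j * δ) * bb j

lemma summable_Om {δ : ℝ} (hδ : 0 ≤ δ) : Summable fun j => min 2 (5 * PP j * δ) * bb j := by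
  refine Summable.of_nonneg_of_le (fun j => ?_) (fun j => ?_) (summable_bb.mul_left 2)
  · exact mul_nonneg (le_min (by norm_num) (by positivity)) (bb_nonneg j)
  · exact mul_le_mul_of_nonneg_right (min_le_left _ _) (bb_nonneg j)

lemma ff_shift {δ : ℝ} (h : EuclideanSpace ℝ (Fin 2)) (hδ : ‖h‖ ≤ δ) :
    ‖trLp (toT h) ff - ff‖ ≤ Om δ := by
  have hδ0 : 0 ≤ δ := (norm_nonneg _).trans hδ
  have hcont : Continuous (trLp (toT h)) :=
    (Lp.isometry_compMeasurePreserving (p := 2) (E := ℂ) (mp_shiftv (toT h))).continuous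
  have h1 : HasSum (fun j => trLp (toT h) (aj j)) (trLp (toT h) ff) :=
    summable_aj.hasSum.map (trLp (toT h)) hcont
  have h2 : HasSum (fun j => trLp (toT h) (aj j) - aj j) (trLp (toT h) ff - ff) :=
    h1.sub summable_aj.hasSum
  rw [← h2.tsum_eq]
  refine tsum_of_norm_bounded (summable_Om hδ0).hasSum fun j => ?_
  refine (aj_shift j h).trans ?_
  refine mul_le_mul_of_nonneg_right ?_ (bb_nonneg j)
  refine min_le_min_left _ ?_
  gcongr

lemma modulus_ff_le {δ : ℝ} : modulus 2 (ff : Torus 2 → ℂ) δ ≤ ENNReal.ofReal (Om δ) := by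
  unfold modulus
  refine iSup₂_le fun h hh => ?_
  have := eLpNorm_shift_sub (toT h) ff
  have e : ENNReal.ofReal (2 : ℝ) = 2 := by norm_num
  rw [e]
  refine (le_of_eq this).trans ?_
  exact ENNReal.ofReal_le_ofReal (ff_shift h hh)

lemma bb_geom {K j : ℕ} (h : K ≤ j) : bb j ≤ 4 * (1 / 2) ^ j / √((K : ℝ) + 1) := by
  unfold bb
  have : (K : ℝ) ≤ j := by exact_mod_cast h
  gcongr

lemma Om_le {δ : ℝ} (hδ : 0 < δ) {K : ℕ} (hK1 : PP K * δ ≤ 1) :
    Om δ ≤ 40 * √δ + 16 * (1 / 2) ^ K / √((K : ℝ) + 1) := by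
  have hP : ∀ j, j < K → (PP j : ℝ) * δ ≤ √δ := by
    intro j hj
    have h1 : PP j * PP j ≤ PP K := by
      rw [← PP_succ]
      exact PP_mono hj
    have h1' : (PP j : ℝ) * PP j ≤ PP K := by exact_mod_cast h1
    have h2 : ((PP j : ℝ) * δ) ^ 2 ≤ (√δ) ^ 2 := by
      rw [Real.sq_sqrt hδ.le]
      calc ((PP j : ℝ) * δ) ^ 2 = (PP j * PP j) * δ * δ := by ring
        _ ≤ PP K * δ * δ := by gcongr
        _ ≤ 1 * δ := by gcongr
        _ = δ := one_mul δ
    exact (sq_le_sq₀ (by positivity) (Real.sqrt_nonneg _)).mp h2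
  have hterm : ∀ j, min 2 (5 * PP j * δ) * bb j ≤
      20 * √δ * (1 / 2) ^ j + (if K ≤ j then 8 / √((K : ℝ) + 1) * (1 / 2) ^ j else 0) := by
    intro j
    split_ifs with h
    · have h1 : min 2 (5 * PP j * δ) * bb j ≤ 2 * (4 * (1 / 2) ^ j / √((K : ℝ) + 1)) := by
        refine mul_le_mul (min_le_left _ _) (bb_geom h) (bb_nonneg j) (by norm_num)
      have h2 : 0 ≤ 20 * √δ * (1 / 2) ^ j := by positivity
      have h3 : 2 * (4 * (1 / 2) ^ j / √((K : ℝ) + 1)) = 8 / √((K : ℝ) + 1) * (1 / 2) ^ j := by ring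
      linarith
    · push Not at h
      have h1 : min 2 (5 * PP j * δ) * bb j ≤ (5 * √δ) * (4 * (1 / 2) ^ j) := by
        refine mul_le_mul ((min_le_right _ _).trans ?_) (bb_le j) (bb_nonneg j) (by positivity)
        have := hP j h
        linarith
      linarith
  have hs1 : HasSum (fun j : ℕ => 20 * √δ * (1 / 2 : ℝ) ^ j) (20 * √δ * 2) :=
    hasSum_geometric_two.mul_left _
  have hs2 : HasSum (fun j : ℕ => if K ≤ j then 8 / √((K : ℝ) + 1) * (1 / 2 : ℝ) ^ j else 0)
      (8 / √((K : ℝ) + 1) * ((1 / 2) ^ K * 2)) := by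
    have h1 : HasSum (fun i : ℕ => 8 / √((K : ℝ) + 1) * ((1 / 2 : ℝ) ^ K * (1 / 2) ^ i))
        (8 / √((K : ℝ) + 1) * ((1 / 2) ^ K * 2)) :=
      (hasSum_geometric_two.mul_left _).mul_left _
    rw [← hasSum_nat_add_iff' K]
    have h2 : ∑ i ∈ Finset.range K, (if K ≤ i then 8 / √((K : ℝ) + 1) * (1 / 2 : ℝ) ^ i else 0) = 0 := by
      refine Finset.sum_eq_zero fun i hi => ?_
      rw [if_neg]
      simpa using Finset.mem_range.mp hi
    rw [h2, sub_zero]
    refine h1.congr_fun fun i => ?_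
    rw [if_pos (Nat.le_add_left K i), pow_add]
    ring
  have hle := (summable_Om hδ.le).tsum_le_tsum hterm (hs1.add hs2).summable
  rw [(hs1.add hs2).tsum_eq] at hle
  refine hle.trans (le_of_eq ?_)
  ring

lemma exists_K {δ : ℝ} (hδ : 0 < δ) (hδ1 : δ ≤ 1 / 4) :
    ∃ K : ℕ, PP K * δ ≤ 1 ∧ 1 < PP (K + 1) * δ := by
  have hex : ∃ K : ℕ, 1 < (PP K : ℝ) * δ := by
    have := (tendsto_PP.atTop_mul_const hδ).eventually_gt_atTop 1
    exact this.exists
  classical
  set M := Nat.find hex with hM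
  have h1 : 1 < (PP M : ℝ) * δ := Nat.find_spec hex
  have h0 : ∀ m, m < M → (PP m : ℝ) * δ ≤ 1 := fun m hm => not_lt.mp (Nat.find_min hex hm)
  have hM2 : 2 ≤ M := by
    by_contra hcon
    have hM1 : M ≤ 1 := by omega
    have : (PP M : ℝ) ≤ 4 := by
      have : PP M ≤ PP 1 := PP_mono hM1
      have e : PP 1 = 4 := by norm_num [PP]
      rw [e] at this
      exact_mod_cast this
    nlinarith
  refine ⟨M - 1, h0 _ (by omega), ?_⟩
  have : M - 1 + 1 = M := by omega
  rw [this]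
  exact h1

/-- the quantitative bound -/
lemma Om_mul_log_le {δ : ℝ} (hδ : 0 < δ) (hδ1 : δ ≤ 1 / 16) :
    Om δ * Real.log (1 / δ) ≤ 40 * √δ * Real.log (1 / δ) + 32 / √(Real.log (Real.log (1 / δ))) := by
  obtain ⟨K, hK1, hK2⟩ := exists_K hδ (by linarith)
  have hOm := Om_le hδ hK1
  have hlog2 : 0 < Real.log 2 := Real.log_pos (by norm_num)
  have hlog2' : Real.log 2 < 0.6931471808 := Real.log_two_lt_d9
  have hlog2'' : 0.6931471803 < Real.log 2 := Real.log_two_gt_d9
  have h16 : Real.log 16 ≤ Real.log (1 / δ) := by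
    apply Real.log_le_log (by norm_num)
    rw [le_div_iff₀ hδ]; linarith
  have hlog16 : Real.log 16 = 4 * Real.log 2 := by
    have : (16 : ℝ) = 2 ^ 4 := by norm_num
    rw [this, Real.log_pow]; norm_num
  have ht : 2 < Real.log (1 / δ) := by rw [hlog16] at h16; linarith
  have ht2 : Real.log (1 / δ) < 2 ^ (K + 1) * Real.log 2 := by
    have h1 : 1 / δ < PP (K + 1) := by rw [div_lt_iff₀ hδ]; exact hK2
    have h2 := Real.log_lt_log (by positivity) h1
    refine lt_of_lt_of_eq h2 ?_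
    unfold PP
    push_cast
    rw [Real.log_pow]
    push_cast
    ring
  have hll : Real.log (Real.log (1 / δ)) ≤ (K : ℝ) + 1 := by
    have h1 : Real.log (Real.log (1 / δ)) ≤ Real.log (2 ^ (K + 1)) := by
      apply Real.log_le_log (by linarith)
      have : (2 : ℝ) ^ (K + 1) * Real.log 2 ≤ 2 ^ (K + 1) * 1 := by
        gcongr; linarith
      linarith
    rw [Real.log_pow] at h1
    push_cast at h1
    have : ((K : ℝ) + 1) * Real.log 2 ≤ (K + 1) * 1 := by gcongr; linarith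
    linarith
  have hll0 : 0 < Real.log (Real.log (1 / δ)) := Real.log_pos (by linarith)
  have hsq : √(Real.log (Real.log (1 / δ))) ≤ √((K : ℝ) + 1) := Real.sqrt_le_sqrt hll
  have hsq0 : 0 < √(Real.log (Real.log (1 / δ))) := Real.sqrt_pos.mpr hll0
  calc Om δ * Real.log (1 / δ) ≤ (40 * √δ + 16 * (1 / 2) ^ K / √((K : ℝ) + 1)) * Real.log (1 / δ) := by
        gcongr
    _ = 40 * √δ * Real.log (1 / δ) + (16 * (1 / 2) ^ K / √((K : ℝ) + 1)) * Real.log (1 / δ) := by ring
    _ ≤ 40 * √δ * Real.log (1 / δ) + (16 * (1 / 2) ^ K / √((K : ℝ) + 1)) * (2 ^ (K + 1) * Real.log 2) := by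
        gcongr
    _ = 40 * √δ * Real.log (1 / δ) + 32 * Real.log 2 / √((K : ℝ) + 1) := by
        have : (1 / 2 : ℝ) ^ K * 2 ^ (K + 1) = 2 := by
          rw [pow_succ, ← mul_assoc, ← mul_pow]; norm_num
        congr 1
        rw [div_mul_eq_mul_div]
        congr 1
        linear_combination (16 * Real.log 2) * this
    _ ≤ 40 * √δ * Real.log (1 / δ) + 32 / √(Real.log (Real.log (1 / δ))) := by
        have : 32 * Real.log 2 ≤ 32 := by linarith
        gcongr

lemma tendsto_log_inv : Tendsto (fun δ : ℝ => Real.log (1 / δ)) (𝓝[>] 0) atTop := by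
  simp only [one_div]
  exact Real.tendsto_log_atTop.comp tendsto_inv_nhdsGT_zero

lemma modulusCondition_ff : ModulusCondition 2 2 (ff : Torus 2 → ℂ) := by
  unfold ModulusCondition
  have hee : 0 < Real.exp (Real.exp 1) := Real.exp_pos _
  -- real upper bound in terms of t = log (1/δ)
  set U : ℝ → ℝ := fun t => (40 * (t * Real.exp (-(t / 2))) + 32 / √(Real.log t)) *
    (2 * Real.log (Real.log t)) with hU
  have hUlim : Tendsto U atTop (𝓝 0) := by
    have h1 : Tendsto (fun s : ℝ => Real.log s / √s) atTop (𝓝 0) := by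
      have := (isLittleO_log_rpow_atTop (r := 1 / 2) (by norm_num)).tendsto_div_nhds_zero
      simpa only [Real.sqrt_eq_rpow] using this
    have h2 : Tendsto (fun t : ℝ => Real.log (Real.log t) / √(Real.log t)) atTop (𝓝 0) :=
      h1.comp Real.tendsto_log_atTop
    have h3 : Tendsto (fun t : ℝ => t ^ 2 * Real.exp (-(t / 2))) atTop (𝓝 0) := by
      have h := Real.tendsto_pow_mul_exp_neg_atTop_nhds_zero 2
      have h' : Tendsto (fun t : ℝ => t / 2) atTop atTop := tendsto_id.atTop_div_const (by norm_num)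
      have h4 := (h.comp h').const_mul 4
      rw [mul_zero] at h4
      refine h4.congr fun t => ?_
      simp only [Function.comp]
      ring
    have h5 : Tendsto (fun t : ℝ => 80 * (t ^ 2 * Real.exp (-(t / 2))) +
        64 * (Real.log (Real.log t) / √(Real.log t))) atTop (𝓝 (80 * 0 + 64 * 0)) :=
      (h3.const_mul _).add (h2.const_mul _)
    rw [mul_zero, mul_zero, add_zero] at h5
    refine squeeze_zero' ?_ ?_ h5
    · filter_upwards [eventually_ge_atTop (Real.exp (Real.exp 1))] with t ht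
      have ht0 : 0 < t := hee.trans_le ht
      have h6 : Real.exp 1 ≤ Real.log t := by
        rw [Real.le_log_iff_exp_le ht0]; exact ht
      have h7 : 0 < Real.log t := (Real.exp_pos 1).trans_le h6
      have h8 : 1 ≤ Real.log (Real.log t) := by
        rw [Real.le_log_iff_exp_le h7]; exact h6
      simp only [hU]
      positivity
    · filter_upwards [eventually_ge_atTop (Real.exp (Real.exp 1))] with t ht
      have ht0 : 0 < t := hee.trans_le ht
      have h6 : Real.exp 1 ≤ Real.log t := by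
        rw [Real.le_log_iff_exp_le ht0]; exact ht
      have h7 : 0 < Real.log t := (Real.exp_pos 1).trans_le h6
      have h8 : Real.log (Real.log t) ≤ t := by
        have a1 := Real.log_le_self h7.le
        have a2 := Real.log_le_self ht0.le
        linarith
      have h9 : 0 < Real.exp (-(t / 2)) := Real.exp_pos _
      simp only [hU]
      have e : (40 * (t * Real.exp (-(t / 2))) + 32 / √(Real.log t)) * (2 * Real.log (Real.log t)) =
          80 * (t * Real.log (Real.log t) * Real.exp (-(t / 2))) +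
          64 * (Real.log (Real.log t) / √(Real.log t)) := by ring
      rw [e]
      have h10 : t * Real.log (Real.log t) ≤ t ^ 2 := by nlinarith
      gcongr
  have hcomp := hUlim.comp tendsto_log_inv
  have hEN : Tendsto (fun δ : ℝ => ENNReal.ofReal (U (Real.log (1 / δ)))) (𝓝[>] 0) (𝓝 0) := by
    have := ENNReal.tendsto_ofReal hcomp
    simpa using this
  refine tendsto_of_tendsto_of_tendsto_of_le_of_le' tendsto_const_nhds hEN
    (Eventually.of_forall fun _ => zero_le) ?_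
  have hev1 : ∀ᶠ δ : ℝ in 𝓝[>] 0, Real.exp (Real.exp 1) ≤ Real.log (1 / δ) :=
    tendsto_log_inv.eventually_ge_atTop _
  have hev2 : ∀ᶠ δ : ℝ in 𝓝[>] 0, 0 < δ := eventually_mem_nhdsWithin
  have hev3 : ∀ᶠ δ : ℝ in 𝓝[>] 0, δ ≤ 1 / 16 := by
    have : ∀ᶠ δ : ℝ in 𝓝 0, δ < 1 / 16 := eventually_lt_nhds (by norm_num)
    exact (this.filter_mono nhdsWithin_le_nhds).mono fun _ h => h.le
  filter_upwards [hev1, hev2, hev3] with δ hδ1 hδ2 hδ3
  set t : ℝ := Real.log (1 / δ) with ht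
  have ht0 : 0 < t := hee.trans_le hδ1
  have h6 : Real.exp 1 ≤ Real.log t := by
    rw [Real.le_log_iff_exp_le ht0]; exact hδ1
  have h7 : 0 < Real.log t := (Real.exp_pos 1).trans_le h6
  have h8 : 1 ≤ Real.log (Real.log t) := by
    rw [Real.le_log_iff_exp_le h7]; exact h6
  have he1 : (2 : ℝ) ≤ Real.exp 1 := by
    have := Real.add_one_le_exp (1 : ℝ); linarith
  have he2 : (2 : ℝ) ≤ Real.exp (Real.exp 1) := by
    have := Real.add_one_le_exp (Real.exp 1); linarith
  -- triple log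
  have hL : Real.log (Real.exp (Real.exp (Real.exp 1)) / δ) = Real.exp (Real.exp 1) + t := by
    rw [Real.log_div (Real.exp_pos _).ne' hδ2.ne', Real.log_exp, ht, one_div, Real.log_inv]
    ring
  have hL2 : Real.log (Real.exp (Real.exp 1) + t) ≤ 2 * Real.log t := by
    have : 2 * Real.log t = Real.log (t ^ 2) := by rw [Real.log_pow]; norm_num
    rw [this]
    apply Real.log_le_log (by positivity)
    nlinarith
  have hL20 : Real.log t ≤ Real.log (Real.exp (Real.exp 1) + t) := by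
    apply Real.log_le_log ht0; linarith
  have hL3 : Real.log (Real.log (Real.exp (Real.exp 1) + t)) ≤ 2 * Real.log (Real.log t) := by
    have : 2 * Real.log (Real.log t) = Real.log ((Real.log t) ^ 2) := by
      rw [Real.log_pow]; norm_num
    rw [this]
    apply Real.log_le_log (by linarith)
    refine hL2.trans ?_
    nlinarith
  have hL30 : 0 ≤ Real.log (Real.log (Real.exp (Real.exp 1) + t)) := by
    apply Real.log_nonneg
    linarith
  have hexp : ((2 : ℕ) : ℝ) / 2 = 1 := by norm_num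
  rw [hexp, Real.rpow_one, hL]
  have hsqrt : √δ = Real.exp (-(t / 2)) := by
    rw [ht, one_div, Real.log_inv, Real.sqrt_eq_rpow, Real.rpow_def_of_pos hδ2]
    congr 1
    ring
  have hmain := Om_mul_log_le hδ2 hδ3
  rw [← ht, hsqrt] at hmain
  calc modulus 2 (ff : Torus 2 → ℂ) δ * ENNReal.ofReal (t * Real.log (Real.log (Real.exp (Real.exp 1) + t)))
      ≤ ENNReal.ofReal (Om δ) * ENNReal.ofReal (t * Real.log (Real.log (Real.exp (Real.exp 1) + t))) := by
        gcongr
        exact modulus_ff_le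
    _ = ENNReal.ofReal (Om δ * t * Real.log (Real.log (Real.exp (Real.exp 1) + t))) := by
        rw [← ENNReal.ofReal_mul' (by positivity)]
        congr 1
        ring
    _ ≤ ENNReal.ofReal (U t) := by
        apply ENNReal.ofReal_le_ofReal
        simp only [hU]
        have h0 : 0 ≤ 40 * (t * Real.exp (-(t / 2))) + 32 / √(Real.log t) := by positivity
        refine mul_le_mul ?_ hL3 hL30 h0
        linarith


/-! ## Almost everywhere divergence and the real-valued example -/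

lemma nullS : NullSingletonClass (AddCircle.haarAddCircle : Measure (AddCircle (2 * Real.pi))) := by
  have hne : ((Real.pi : ℝ) : AddCircle (2 * Real.pi)) ≠ 0 := by
    rw [Ne, AddCircle.coe_eq_zero_iff]
    rintro ⟨n, hn⟩
    have hpi := Real.pi_pos
    rw [zsmul_eq_mul] at hn
    have h2 : (2 * n : ℝ) = 1 := by
      apply mul_right_cancel₀ hpi.ne'
      linarith
    have h3 : (2 * n : ℤ) = 1 := by exact_mod_cast h2
    omega
  have : Nontrivial (AddCircle (2 * Real.pi)) := ⟨_, _, hne⟩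
  have : (𝓝[≠] (0 : AddCircle (2 * Real.pi))).NeBot := inferInstance
  infer_instance

theorem ff_ae_diverges : ∀ᵐ x ∂(torusMeasure 2), ¬ PringsheimConverges (ff : Torus 2 → ℂ) x := by
  have := nullS
  have h1 : ∀ᵐ x ∂(torusMeasure 2), x 0 ≠ (0 : AddCircle (2 * Real.pi)) :=
    Measure.ae_eval_ne (μ := fun _ : Fin 2 => AddCircle.haarAddCircle) 0 0
  have h2 : ∀ᵐ x ∂(torusMeasure 2), x 0 ≠ ((Real.pi : ℝ) : AddCircle (2 * Real.pi)) :=
    Measure.ae_eval_ne (μ := fun _ : Fin 2 => AddCircle.haarAddCircle) 0 _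
  have hpi := Real.pi_pos
  filter_upwards [h1, h2] with x hx1 hx2
  set ξ := AddCircle.equivIoc (2 * Real.pi) (-Real.pi) (x 0) with hξ
  set η := AddCircle.equivIco (2 * Real.pi) 0 (x 1) with hη
  have e1 : ((ξ : ℝ) : AddCircle (2 * Real.pi)) = x 0 := AddCircle.coe_equivIoc
  have e2 : ((η : ℝ) : AddCircle (2 * Real.pi)) = x 1 := AddCircle.coe_equivIco
  have hx : x = ![((ξ : ℝ) : AddCircle (2 * Real.pi)), ((η : ℝ) : AddCircle (2 * Real.pi))] := by
    ext i
    fin_cases i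
    · exact e1.symm
    · exact e2.symm
  rw [hx]
  have m1 := ξ.2
  have m2 := η.2
  rw [Set.mem_Ioc] at m1
  rw [Set.mem_Ico] at m2
  have n1 : (ξ : ℝ) ≠ 0 := by
    intro h0
    rw [h0] at e1
    exact hx1 e1.symm
  have n2 : (ξ : ℝ) ≠ Real.pi := by
    intro h0
    rw [h0] at e1
    exact hx2 e1.symm
  have m3 : (ξ : ℝ) < Real.pi := lt_of_le_of_ne (by linarith [m1.2]) n2
  refine ff_diverges n1 ?_ m2.1 (by linarith [m2.2])
  rw [abs_lt]
  exact ⟨m1.1, m3⟩

lemma fhat_conj (f : Torus d → ℂ) (k : Fin d → ℤ) :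
    fhat (fun x => conj (f x)) k = conj (fhat f (-k)) := by
  rw [fhat, fhat, ← integral_conj]
  refine integral_congr_ae (Eventually.of_forall fun x => ?_)
  simp only [map_mul, Complex.conj_conj, chr_neg]

lemma partialSum_conj (f : Torus d → ℂ) (n : Fin d → ℕ) (x : Torus d) :
    partialSum (fun x => conj (f x)) n x = conj (partialSum f n x) := by
  rw [partialSum, partialSum, map_sum]
  refine Finset.sum_nbij' (fun k => -k) (fun k => -k) ?_ ?_ ?_ ?_ ?_
  · intro k hk
    rw [Fintype.mem_piFinset] at hk ⊢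
    intro j
    have := hk j
    simp only [Finset.mem_Icc, Pi.neg_apply] at this ⊢
    omega
  · intro k hk
    rw [Fintype.mem_piFinset] at hk ⊢
    intro j
    have := hk j
    simp only [Finset.mem_Icc, Pi.neg_apply] at this ⊢
    omega
  · intro k _; simp
  · intro k _; simp
  · intro k _
    rw [fhat_conj, map_mul, ← chr_neg, neg_neg]

lemma integrable_mul_chr {f : Torus d → ℂ} (hf : Integrable f (torusMeasure d)) (k : Fin d → ℤ) :
    Integrable (fun x => f x * conj (chr k x)) (torusMeasure d) := by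
  have hc : Continuous (fun x : Torus d => conj (chr k x)) := by unfold chr; fun_prop
  refine hf.mul_bdd (c := 1) hc.aestronglyMeasurable ?_
  refine Eventually.of_forall fun x => ?_
  rw [RCLike.norm_conj, chr_norm]

lemma partialSum_comb {f g : Torus d → ℂ} (hf : Integrable f (torusMeasure d))
    (hg : Integrable g (torusMeasure d)) (a b : ℂ) (n : Fin d → ℕ) (x : Torus d) :
    partialSum (fun x => a * f x + b * g x) n x = a * partialSum f n x + b * partialSum g n x := by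
  simp only [partialSum, Finset.mul_sum]
  rw [← Finset.sum_add_distrib]
  refine Finset.sum_congr rfl fun k _ => ?_
  have : fhat (fun x => a * f x + b * g x) k = a * fhat f k + b * fhat g k := by
    rw [fhat, fhat, fhat, ← integral_const_mul, ← integral_const_mul,
      ← integral_add ((integrable_mul_chr hf k).const_mul a) ((integrable_mul_chr hg k).const_mul b)]
    refine integral_congr_ae (Eventually.of_forall fun x => ?_)
    simp only
    ring
  rw [this]
  ring

/-- the real-valued functions `Re ff + t Im ff` -/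
noncomputable def Ft (t : ℝ) (x : Torus 2) : ℝ := (ff x).re + t * (ff x).im

lemma Ft_eq (t : ℝ) (x : Torus 2) : ((Ft t x : ℝ) : ℂ) =
    ((1 - t * Complex.I) / 2) * ff x + ((1 + t * Complex.I) / 2) * conj (ff x) := by
  apply Complex.ext
  · simp [Ft]; ring
  · simp [Ft]; ring

lemma ff_integrable : Integrable (ff : Torus 2 → ℂ) (torusMeasure 2) :=
  (Lp.memLp ff).integrable (by norm_num)

lemma conj_ff_integrable : Integrable (fun x => conj (ff x)) (torusMeasure 2) := by
  refine ⟨Complex.continuous_conj.comp_aestronglyMeasurable ff_integrable.1, ?_⟩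
  refine ff_integrable.2.congr' (Eventually.of_forall fun x => ?_)
  simp

lemma partialSum_Ft (t : ℝ) (n : Fin 2 → ℕ) (x : Torus 2) :
    partialSum (fun x => ((Ft t x : ℝ) : ℂ)) n x =
      ((1 - t * Complex.I) / 2) * partialSum (ff : Torus 2 → ℂ) n x +
        ((1 + t * Complex.I) / 2) * conj (partialSum (ff : Torus 2 → ℂ) n x) := by
  simp only [Ft_eq]
  rw [partialSum_comb ff_integrable conj_ff_integrable, partialSum_conj]

lemma conv_of_two {s t : ℝ} (hst : s ≠ t) {x : Torus 2}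
    (hs : PringsheimConverges (fun x => ((Ft s x : ℝ) : ℂ)) x)
    (ht : PringsheimConverges (fun x => ((Ft t x : ℝ) : ℂ)) x) :
    PringsheimConverges (ff : Torus 2 → ℂ) x := by
  obtain ⟨L1, h1⟩ := hs
  obtain ⟨L2, h2⟩ := ht
  simp only [partialSum_Ft] at h1 h2
  have hne : ((s : ℂ) - t) ≠ 0 := by
    rw [sub_ne_zero]
    exact_mod_cast hst
  refine ⟨(1 / ((s : ℂ) - t)) * ((Complex.I - t) * L1 - (Complex.I - s) * L2), ?_⟩
  have h3 := ((h1.const_mul (Complex.I - (t : ℂ))).sub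
    (h2.const_mul (Complex.I - (s : ℂ)))).const_mul (1 / ((s : ℂ) - t))
  refine h3.congr fun n => ?_
  have hI := Complex.I_mul_I
  field_simp
  linear_combination (((s : ℂ) - t) * partialSum (ff : Torus 2 → ℂ) n x - ((s : ℂ) - t) * conj (partialSum (ff : Torus 2 → ℂ) n x)) * (-hI)

lemma modulus_Ft_le (t δ : ℝ) : modulus 2 (fun x => ((Ft t x : ℝ) : ℂ)) δ ≤
    ENNReal.ofReal (1 + |t|) * modulus 2 (ff : Torus 2 → ℂ) δ := by
  unfold modulus
  refine iSup₂_le fun h hh => ?_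
  have h1 : eLpNorm (fun x => ((Ft t (x + fun j => ((h j : ℝ) : AddCircle (2 * Real.pi))) : ℝ) : ℂ) -
      ((Ft t x : ℝ) : ℂ)) (ENNReal.ofReal 2) (torusMeasure 2) ≤ ENNReal.ofReal (1 + |t|) *
      eLpNorm (fun x => ff (x + fun j => ((h j : ℝ) : AddCircle (2 * Real.pi))) - ff x)
      (ENNReal.ofReal 2) (torusMeasure 2) := by
    refine eLpNorm_le_mul_eLpNorm_of_ae_le_mul (Eventually.of_forall fun x => ?_) _
    rw [← Complex.ofReal_sub, Complex.norm_real, Real.norm_eq_abs]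
    set w := ff (x + fun j => ((h j : ℝ) : AddCircle (2 * Real.pi))) - ff x with hw
    have e : Ft t (x + fun j => ((h j : ℝ) : AddCircle (2 * Real.pi))) - Ft t x =
        w.re + t * w.im := by
      simp only [Ft, hw, Complex.sub_re, Complex.sub_im]
      ring
    rw [e]
    calc |w.re + t * w.im| ≤ |w.re| + |t * w.im| := abs_add_le _ _
      _ = |w.re| + |t| * |w.im| := by rw [abs_mul]
      _ ≤ ‖w‖ + |t| * ‖w‖ := by
        gcongr
        · exact Complex.abs_re_le_norm w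
        · exact Complex.abs_im_le_norm w
      _ = (1 + |t|) * ‖w‖ := by ring
  refine h1.trans ?_
  gcongr
  exact le_iSup₂_of_le h hh le_rfl

lemma modulusCondition_Ft (t : ℝ) : ModulusCondition 2 2 (fun x => ((Ft t x : ℝ) : ℂ)) := by
  have h := modulusCondition_ff
  unfold ModulusCondition at h ⊢
  have h2 := ENNReal.Tendsto.const_mul (a := ENNReal.ofReal (1 + |t|)) h
    (Or.inr ENNReal.ofReal_ne_top)
  rw [mul_zero] at h2
  refine tendsto_of_tendsto_of_tendsto_of_le_of_le tendsto_const_nhds h2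
    (fun _ => zero_le) fun δ => ?_
  simp only
  rw [← mul_assoc]
  gcongr
  exact modulus_Ft_le t δ

lemma measurable_conv (t : ℝ) :
    MeasurableSet {x | PringsheimConverges (fun x => ((Ft t x : ℝ) : ℂ)) x} := by
  unfold PringsheimConverges
  refine measurableSet_exists_tendsto fun n => ?_
  apply Continuous.measurable
  unfold partialSum chr
  fun_prop

theorem counterexample :
    ∃ f : Torus 2 → ℝ, MemLp f 2 (torusMeasure 2) ∧
      ModulusCondition 2 2 (fun x => (f x : ℂ)) ∧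
      ∀ᵐ x ∂(torusMeasure 2), ¬ PringsheimConverges (fun x => (f x : ℂ)) x := by
  have hae := ff_ae_diverges
  obtain ⟨D, hDm, hDsub, hDae⟩ : ∃ D : Set (Torus 2), MeasurableSet D ∧
      (∀ x ∈ D, ¬ PringsheimConverges (ff : Torus 2 → ℂ) x) ∧ (torusMeasure 2) Dᶜ = 0 := by
    have h1 := mem_ae_iff.mp hae
    obtain ⟨u, hu1, hu2, hu3⟩ := exists_measurable_superset_of_null h1
    refine ⟨uᶜ, hu2.compl, fun x hx => ?_, by rwa [compl_compl]⟩
    by_contra hcon
    exact hx (hu1 (by simpa using hcon))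
  set A : ℝ → Set (Torus 2) := fun t =>
    {x | PringsheimConverges (fun x => ((Ft t x : ℝ) : ℂ)) x} ∩ D with hA
  have hAm : ∀ t, MeasurableSet (A t) := fun t => (measurable_conv t).inter hDm
  have hdisj : Pairwise (Function.onFun Disjoint A) := by
    intro s t hst
    rw [Function.onFun, Set.disjoint_left]
    intro x hx1 hx2
    exact hDsub x hx1.2 (conv_of_two hst hx1.1 hx2.1)
  have hcount := Measure.countable_meas_pos_of_disjoint_iUnion (μ := torusMeasure 2) hAm hdisj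
  have hne : ∃ t : ℝ, t ∉ {i : ℝ | 0 < (torusMeasure 2) (A i)} := by
    by_contra hcon
    push Not at hcon
    have : {i : ℝ | 0 < (torusMeasure 2) (A i)} = Set.univ := Set.eq_univ_of_forall hcon
    rw [this] at hcount
    exact not_countable (Set.countable_univ_iff.mp hcount)
  obtain ⟨t, ht⟩ := hne
  have ht0 : (torusMeasure 2) (A t) = 0 := by simpa using ht
  refine ⟨Ft t, ?_, modulusCondition_Ft t, ?_⟩
  · have h1 : MemLp (fun x => (ff x).re) 2 (torusMeasure 2) := (Lp.memLp ff).re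
    have h2 : MemLp (fun x => (ff x).im) 2 (torusMeasure 2) := (Lp.memLp ff).im
    exact h1.add (h2.const_mul t)
  · rw [ae_iff]
    refine measure_mono_null (t := A t ∪ Dᶜ) ?_ (measure_union_null ht0 hDae)
    intro x hx
    by_cases hxD : x ∈ D
    · left
      exact ⟨by simpa using hx, hxD⟩
    · right
      exact hxD

end Pool.Agent.Work.MP_fa619e_an
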